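import Pool.Agent.Helper79.JET.Jet
import Pool.Agent.Helper57.TA.Str

/-! Literal boxes with flat untilted lower vertical coordinates: fresh points, recentring of the jets of the next
coordinate (RC). -/

set_option autoImplicit false
set_option linter.unusedSectionVars false

namespace Pool.Agent.Helper79.WLK

open Finset Filter Topology Pool.Agent.Helper69.RK Pool.Agent.Helper31.EC Pool.Agent.Helper31.EC.Sp
open Pool.Agent.Helper31.EC.QS Pool.Agent.Helper57.TA Pool.Agent.Helper21.DO Pool.Agent.Helper38.NS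
open Pool.Agent.Helper79.JET

noncomputable section

section alg

variable {A B : Type*} [CommRing A] [CommRing B] {β κ : Type*}

/-- new origin -/
def sh (x : β → A) (J : MvPolynomial β A) : MvPolynomial β A :=
  MvPolynomial.aeval (fun a => MvPolynomial.C (x a) + MvPolynomial.X a) J

theorem sh_eval (x y : β → A) (J : MvPolynomial β A) :
    MvPolynomial.eval y (sh x J) = MvPolynomial.eval (fun a => x a + y a) J := by
  unfold sh
  rw [eval_sbs]
  congr 1
  congr 1
  funext a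
  rw [map_add, MvPolynomial.eval_C, MvPolynomial.eval_X]

theorem map_sh (ψ : A →+* B) (x : β → A) (J : MvPolynomial β A) :
    MvPolynomial.map ψ (sh x J) = sh (fun a => ψ (x a)) (MvPolynomial.map ψ J) := by
  unfold sh
  rw [map_sbs]
  congr 2
  funext a
  rw [map_add, MvPolynomial.map_C, MvPolynomial.map_X]

/-- defect of additivity of the lower coordinates -/
def Ed (x : β → A) (Q0 Q1 : MvPolynomial β A) : MvPolynomial β A :=
  MvPolynomial.C (MvPolynomial.eval x Q0) + Q1 - sh x Q0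

theorem Ed_eval (x y : β → A) (Q0 Q1 : MvPolynomial β A) : MvPolynomial.eval y (Ed x Q0 Q1) =
    MvPolynomial.eval x Q0 + MvPolynomial.eval y Q1 - MvPolynomial.eval (fun a => x a + y a) Q0 := by
  unfold Ed
  rw [map_sub, map_add, MvPolynomial.eval_C, sh_eval]

theorem map_Ed (ψ : A →+* B) (x : β → A) (Q0 Q1 : MvPolynomial β A) :
    MvPolynomial.map ψ (Ed x Q0 Q1) =
      Ed (fun a => ψ (x a)) (MvPolynomial.map ψ Q0) (MvPolynomial.map ψ Q1) := by
  unfold Ed
  rw [map_sub, map_add, MvPolynomial.map_C, map_sh, ← MvPolynomial.eval₂_id, MvPolynomial.hom_eval₂,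
    MvPolynomial.eval_map]
  rfl

/-- the substitution: box coordinates at the first point as polynomials in the box coordinates at the second point -/
def sb (y : β ⊕ κ → A) (Q0 Q1 : κ → MvPolynomial β A) : β ⊕ κ → MvPolynomial (β ⊕ κ) A :=
  Sum.elim (fun a => MvPolynomial.C (y (Sum.inl a)) + MvPolynomial.X (Sum.inl a))
    (fun k => MvPolynomial.C (y (Sum.inr k)) + MvPolynomial.X (Sum.inr k) +
      MvPolynomial.rename Sum.inl (Ed (fun a => y (Sum.inl a)) (Q0 k) (Q1 k)))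

/-- the recentred polynomial minus the polynomial at the second point -/
def Gp (y : β ⊕ κ → A) (Q0 Q1 : κ → MvPolynomial β A) (J0 J1 : MvPolynomial (β ⊕ κ) A) :
    MvPolynomial (β ⊕ κ) A :=
  MvPolynomial.aeval (sb y Q0 Q1) J0 - MvPolynomial.C (MvPolynomial.eval y J0) - J1

theorem map_Gp (ψ : A →+* B) (y : β ⊕ κ → A) (Q0 Q1 : κ → MvPolynomial β A) (J0 J1 : MvPolynomial (β ⊕ κ) A) :
    MvPolynomial.map ψ (Gp y Q0 Q1 J0 J1) = Gp (fun a => ψ (y a)) (fun k => MvPolynomial.map ψ (Q0 k))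
      (fun k => MvPolynomial.map ψ (Q1 k)) (MvPolynomial.map ψ J0) (MvPolynomial.map ψ J1) := by
  unfold Gp
  rw [map_sub, map_sub, map_sbs, MvPolynomial.map_C, ← MvPolynomial.eval₂_id, MvPolynomial.hom_eval₂,
    MvPolynomial.eval_map]
  congr 3
  congr 2
  funext a
  rcases a with a | k
  · show MvPolynomial.map ψ (MvPolynomial.C _ + MvPolynomial.X _) = MvPolynomial.C _ + MvPolynomial.X _
    rw [map_add, MvPolynomial.map_C, MvPolynomial.map_X]
  · show MvPolynomial.map ψ (MvPolynomial.C _ + MvPolynomial.X _ + MvPolynomial.rename _ _) =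
      MvPolynomial.C _ + MvPolynomial.X _ + MvPolynomial.rename _ _
    rw [map_add, map_add, MvPolynomial.map_C, MvPolynomial.map_X, MvPolynomial.map_rename, map_Ed]

open Classical in
theorem sb_pderiv (y : β ⊕ κ → A) (Q0 Q1 : κ → MvPolynomial β A) (l : κ) (a : β ⊕ κ) :
    MvPolynomial.pderiv (Sum.inr l) (sb y Q0 Q1 a) = if a = Sum.inr l then 1 else 0 := by
  rcases a with a | k
  · show MvPolynomial.pderiv _ (MvPolynomial.C _ + MvPolynomial.X (Sum.inl a)) = _
    rw [map_add, MvPolynomial.pderiv_C, MvPolynomial.pderiv_X_of_ne (by simp), if_neg (by simp), add_zero]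
  · show MvPolynomial.pderiv _ (MvPolynomial.C _ + MvPolynomial.X (Sum.inr k) + MvPolynomial.rename Sum.inl _) = _
    have h1 : MvPolynomial.pderiv (Sum.inr l : β ⊕ κ)
        (MvPolynomial.rename Sum.inl (Ed (fun a => y (Sum.inl a)) (Q0 k) (Q1 k))) = 0 := by
      apply MvPolynomial.pderiv_eq_zero_of_notMem_vars
      intro h
      have h2 := MvPolynomial.vars_rename (Sum.inl : β → β ⊕ κ) _ h
      obtain ⟨x, _, hx⟩ := Finset.mem_image.mp h2
      simp at hx
    rw [map_add, map_add, MvPolynomial.pderiv_C, h1, zero_add, add_zero, MvPolynomial.pderiv_X]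
    by_cases hk : k = l
    · subst hk
      rw [Pi.single_eq_same, if_pos rfl]
    · rw [Pi.single_eq_of_ne (by simpa using hk), if_neg (by simpa using hk)]

theorem Gp_single (y : β ⊕ κ → A) (Q0 Q1 : κ → MvPolynomial β A) (hQ : ∀ k, (Q1 k).coeff 0 = 0)
    (J0 J1 : MvPolynomial (β ⊕ κ) A) (l : κ) :
    (Gp y Q0 Q1 J0 J1).coeff (Finsupp.single (Sum.inr l) 1) =
      MvPolynomial.eval y (MvPolynomial.pderiv (Sum.inr l) J0) - J1.coeff (Finsupp.single (Sum.inr l) 1) := by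
  classical
  unfold Gp
  rw [MvPolynomial.coeff_sub, MvPolynomial.coeff_sub, MvPolynomial.coeff_C,
    if_neg (Ne.symm (Finsupp.single_ne_zero.mpr one_ne_zero)), sub_zero, coeff_single_eq,
    pderiv_sbs (sb y Q0 Q1) (Sum.inr l) (Sum.inr l) (fun a => by rw [sb_pderiv]), coeff_zero_eval, eval_sbs]
  congr 3
  funext a
  rcases a with a | k
  · show MvPolynomial.eval _ (MvPolynomial.C _ + MvPolynomial.X _) = _
    rw [map_add, MvPolynomial.eval_C, MvPolynomial.eval_X, add_zero]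
  · show MvPolynomial.eval _ (MvPolynomial.C _ + MvPolynomial.X _ + MvPolynomial.rename _ _) = _
    rw [map_add, map_add, MvPolynomial.eval_C, MvPolynomial.eval_X, add_zero, MvPolynomial.eval_rename, Ed_eval]
    have h1 : (fun _ => 0 : β ⊕ κ → A) ∘ Sum.inl = fun _ => 0 := rfl
    rw [h1, ← coeff_zero_eval, hQ k]
    simp

end alg

variable {S : Sp} {β κ : Type} [Fintype β] [Fintype κ]

/-- box coordinates of the second point at the first point -/
def bc {W : Sp} (P0 P1 : Pj W S) (q : β → QS S) (R : κ → QS S) (Q : κ → MvPolynomial β (QS S)) : β ⊕ κ → QS W :=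
  Sum.elim (fun a => P1.qs (q a) - P0.qs (q a)) (fun k => P1.qs (R k) - P0.qs (R k) -
    MvPolynomial.eval (fun a => P1.qs (q a) - P0.qs (q a)) (MvPolynomial.map P0.qs (Q k)))

theorem map_pj_comp {D W : Sp} (r : Pj D W) (P : Pj W S) {σ : Type} (J : MvPolynomial σ (QS S)) :
    MvPolynomial.map r.qs (MvPolynomial.map P.qs J) = MvPolynomial.map (r.comp P).qs J := by
  ext m
  rw [MvPolynomial.coeff_map, MvPolynomial.coeff_map, MvPolynomial.coeff_map, Pj.comp_qs]

theorem bc_comp {D W : Sp} (r : Pj D W) (P0 P1 : Pj W S) (q : β → QS S) (R : κ → QS S)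
    (Q : κ → MvPolynomial β (QS S)) (a : β ⊕ κ) : bc (r.comp P0) (r.comp P1) q R Q a = r.qs (bc P0 P1 q R Q a) := by
  rcases a with a | k
  · show (r.comp P1).qs _ - (r.comp P0).qs _ = r.qs (P1.qs _ - P0.qs _)
    rw [map_sub, Pj.comp_qs, Pj.comp_qs]
  · show (r.comp P1).qs _ - (r.comp P0).qs _ - MvPolynomial.eval _ _ = r.qs (P1.qs _ - P0.qs _ - MvPolynomial.eval _ _)
    rw [map_sub, map_sub, Pj.comp_qs, Pj.comp_qs, qs_eval, map_pj_comp]
    congr 3
    funext a
    rw [map_sub, Pj.comp_qs, Pj.comp_qs]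

/-- composition of the box coordinates -/
theorem bc_add {W : Sp} (P0 P1 P2 : Pj W S) (q : β → QS S) (R : κ → QS S) (Q : κ → MvPolynomial β (QS S))
    (a : β ⊕ κ) : bc P0 P2 q R Q a = MvPolynomial.eval (bc P1 P2 q R Q)
      (sb (bc P0 P1 q R Q) (fun k => MvPolynomial.map P0.qs (Q k)) (fun k => MvPolynomial.map P1.qs (Q k)) a) := by
  rcases a with a | k
  · show P2.qs _ - P0.qs _ = MvPolynomial.eval _ (MvPolynomial.C (P1.qs (q a) - P0.qs (q a)) + MvPolynomial.X _)
    rw [map_add, MvPolynomial.eval_C, MvPolynomial.eval_X]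
    show _ = _ + (P2.qs (q a) - P1.qs (q a))
    ring
  · show P2.qs _ - P0.qs _ - MvPolynomial.eval _ _ = MvPolynomial.eval _ (MvPolynomial.C (bc P0 P1 q R Q (Sum.inr k)) +
      MvPolynomial.X _ + MvPolynomial.rename _ _)
    rw [map_add, map_add, MvPolynomial.eval_C, MvPolynomial.eval_X, MvPolynomial.eval_rename, Ed_eval]
    have e1 : (fun a => bc P0 P1 q R Q (Sum.inl a) + (bc P1 P2 q R Q ∘ Sum.inl) a) =
        fun a => P2.qs (q a) - P0.qs (q a) := by
      funext a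
      show P1.qs (q a) - P0.qs (q a) + (P2.qs (q a) - P1.qs (q a)) = _
      ring
    rw [e1]
    have e2 : (bc P1 P2 q R Q ∘ Sum.inl) = fun a => P2.qs (q a) - P1.qs (q a) := rfl
    have e3 : (fun a => bc P0 P1 q R Q (Sum.inl a)) = fun a => P1.qs (q a) - P0.qs (q a) := rfl
    rw [e2, e3]
    show _ = (P1.qs (R k) - P0.qs (R k) - MvPolynomial.eval _ _) + (P2.qs (R k) - P1.qs (R k) -
      MvPolynomial.eval _ _) + _
    ring

/-- LITERAL BOX of scale `s` for the base coordinates and the flat untilted lower vertical coordinates -/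
structure LB (q : β → QS S) (R : κ → QS S) (Q : κ → MvPolynomial β (QS S)) (wt : β ⊕ κ → ℝ) {ι : Type} [Fintype ι]
    (g : ι → QS S) (s : ℝ) : Prop where
  mem : ∀ (W : Sp) (P0 P1 : Pj W S), (∀ i, P0.qs (g i) = P1.qs (g i)) → ∀ a, bc P0 P1 q R Q a ∈ Id W (wt a * s)
  full : h (vd (Sum.elim q R) 1) (vd g 1) = ∑ a, (1 - wt a * s)

/-- the relation of the next coordinate in a literal box -/
def LR (q : β → QS S) (R : κ → QS S) (Q : κ → MvPolynomial β (QS S)) (z : QS S) (J : MvPolynomial (β ⊕ κ) (QS S))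
    {ι : Type} (g : ι → QS S) (r : ℝ) : Prop :=
  ∀ (W : Sp) (P0 P1 : Pj W S), (∀ i, P0.qs (g i) = P1.qs (g i)) →
    P1.qs z - P0.qs z - MvPolynomial.eval (bc P0 P1 q R Q) (MvPolynomial.map P0.qs J) ∈ Id W r

theorem LR.mono {q : β → QS S} {R : κ → QS S} {Q : κ → MvPolynomial β (QS S)} {z : QS S}
    {J : MvPolynomial (β ⊕ κ) (QS S)} {ι : Type} {g : ι → QS S} {r r' : ℝ} (h : LR q R Q z J g r) (hr : r' ≤ r) :
    LR q R Q z J g r' := fun W P0 P1 hc => Id_mono hr (h W P0 P1 hc)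

section fresh

variable {q : β → QS S} {R : κ → QS S} {Q : κ → MvPolynomial β (QS S)} {wt : β ⊕ κ → ℝ} {ι : Type} [Fintype ι]
  {g : ι → QS S} {s : ℝ}

/-- FRESH POINTS in a literal box, at a displacement whose first digits are free; further functions known to the label
may be made common -/
theorem LB.fresh (hb : LB q R Q wt g s) (hs : 0 ≤ s) (hwt : ∀ a, 0 ≤ wt a) {ℓ : ℝ} (hℓ : 0 ≤ ℓ)
    (hw : ∀ a, ℓ ≤ 1 - wt a * s) {ι' : Type} [Fintype ι'] (g' : ι' → QS S) (hg' : vd g' 1 ≤ vd g 1) {W : Sp}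
    (P : Pj W S) :
    ∃ (D : Sp) (r : Pj D W) (P2 : Pj D S) (ξ : β ⊕ κ → QS D), (∀ i, r.qs (P.qs (g i)) = P2.qs (g i)) ∧
      (∀ i, r.qs (P.qs (g' i)) = P2.qs (g' i)) ∧
      (∀ a, bc (r.comp P) P2 q R Q a = sc D (wt a * s) * ξ a) ∧
      (∀ a, dg (ξ a) 1 ≤ dg (bc (r.comp P) P2 q R Q a) 1) ∧
      (∀ x y, I (r.map x) (P2.map y) (P2.map (vd g 1)) = 0) ∧ ∀ B : W.L, Rt ℓ ξ (r.map B) := by
  classical
  obtain ⟨D, r, P2, hc, hi⟩ := exists_third P (Sum.elim g g')
  have hcg : ∀ i, r.qs (P.qs (g i)) = P2.qs (g i) := fun i => hc (Sum.inl i)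
  have hcg' : ∀ i, r.qs (P.qs (g' i)) = P2.qs (g' i) := fun i => hc (Sum.inr i)
  have hV : vd (Sum.elim g g') 1 = vd g 1 := by
    rw [vd_sum]
    exact sup_eq_left.mpr hg'
  rw [hV] at hi
  have hcc : ∀ i, (r.comp P).qs (g i) = P2.qs (g i) := by
    intro i
    rw [Pj.comp_qs]
    exact hcg i
  have h1 := hb.mem D (r.comp P) P2 hcc
  have hu0 : ∀ a, 0 ≤ wt a * s := fun a => mul_nonneg (hwt a) hs
  have hu1 : ∀ a, wt a * s ≤ 1 := fun a => by have := hw a; linarith
  choose ξ hξ hξk using fun a => exists_div' (hu0 a) (hu1 a) (h1 a)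
  refine ⟨D, r, P2, ξ, hcg, hcg', hξ, hξk, hi, ?_⟩
  intro B
  choose BQ hBQ using fun k => exists_know (Q k)
  obtain ⟨A, hA⟩ : ∃ A : W.L, A = B ⊔ (P.map (vd (Sum.elim q R) 1) ⊔ (P.map (vd g 1) ⊔
    P.map (Finset.univ.sup BQ))) := ⟨_, rfl⟩
  have hBA : B ≤ A := by rw [hA]; exact le_sup_left
  have hXA : P.map (vd (Sum.elim q R) 1) ≤ A := by rw [hA]; exact le_sup_left.trans le_sup_right
  have hgA : P.map (vd g 1) ≤ A := by rw [hA]; exact (le_sup_left.trans le_sup_right).trans le_sup_right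
  have hQA : P.map (Finset.univ.sup BQ) ≤ A := by rw [hA]; exact (le_sup_right.trans le_sup_right).trans le_sup_right
  refine Rt.anti hℓ (B := r.map A) ?_ (Pj.map_mono _ hBA)
  apply Rt.of_ge hℓ
  obtain ⟨U, hU⟩ : ∃ U : D.L, U = Finset.univ.sup fun a => dg (ξ a) (1 - wt a * s) := ⟨_, rfl⟩
  have e2 : P2.map (vd g 1) = r.map (P.map (vd g 1)) := by
    rw [← P2.qs_vd, ← P.qs_vd, ← r.qs_vd]
    exact (vd_congr hcg 1).symm
  have e3 : P2.map (vd g 1) ≤ r.map A := by
    rw [e2]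
    exact Pj.map_mono _ hgA
  have h3 : h (P2.map (vd (Sum.elim q R) 1)) (r.map A) = ∑ a, (1 - wt a * s) := by
    have h4 := I_zero_iff_h'.mp (hi A (vd (Sum.elim q R) 1))
    rw [sup_eq_left.mpr e3] at h4
    rw [h4, Pj.h_map]
    exact hb.full
  have hUa : ∀ a, dg (bc (r.comp P) P2 q R Q a) 1 ≤ U := by
    intro a
    rw [hξ a]
    refine (dg_sc_mul (hu0 a) (hu1 a) le_rfl _).trans ?_
    rw [hU]
    exact Finset.le_sup (f := fun a => dg (ξ a) (1 - wt a * s)) (Finset.mem_univ a)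
  have hpt : ∀ a, dg (r.qs (P.qs (Sum.elim q R a))) 1 ≤ r.map A := by
    intro a
    rw [r.qs_dg, P.qs_dg]
    exact Pj.map_mono _ ((Pj.map_mono _ (dg_le_vd (Sum.elim q R) 1 a)).trans hXA)
  have h5 : P2.map (vd (Sum.elim q R) 1) ≤ U ⊔ r.map A := by
    rw [← P2.qs_vd, vd_le]
    rintro (a | k)
    · have e4 : P2.qs (q a) = r.qs (P.qs (q a)) + bc (r.comp P) P2 q R Q (Sum.inl a) := by
        show _ = _ + (P2.qs (q a) - (r.comp P).qs (q a))
        rw [Pj.comp_qs]
        ring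
      show dg (P2.qs (q a)) 1 ≤ _
      rw [e4]
      exact (dg_add_le _ _ le_rfl).trans (sup_le ((hpt (Sum.inl a)).trans le_sup_right) ((hUa _).trans le_sup_left))
    · have e4 : P2.qs (R k) = r.qs (P.qs (R k)) + bc (r.comp P) P2 q R Q (Sum.inr k) +
          MvPolynomial.eval (fun a => P2.qs (q a) - (r.comp P).qs (q a))
            (MvPolynomial.map (r.comp P).qs (Q k)) := by
        show _ = _ + (P2.qs (R k) - (r.comp P).qs (R k) - _) + _
        rw [Pj.comp_qs]
        ring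
      show dg (P2.qs (R k)) 1 ≤ _
      rw [e4]
      refine (dg_add_le _ _ le_rfl).trans (sup_le ((dg_add_le _ _ le_rfl).trans (sup_le
        ((hpt (Sum.inr k)).trans le_sup_right) ((hUa _).trans le_sup_left))) ?_)
      have h6 : MvPolynomial.map (r.comp P).qs (Q k) ∈ PK (r.map A) := by
        refine PK_mono ?_ (map_PK (r.comp P) (hBQ k))
        rw [Pj.comp_map]
        exact Pj.map_mono _ ((Pj.map_mono _ (Finset.le_sup (Finset.mem_univ k))).trans hQA)
      exact QS.eval_mem h6 _ le_sup_right fun a => (hUa (Sum.inl a)).trans le_sup_left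
  have h6 : h U (r.map A) ≤ h (vd ξ ℓ) (r.map A) + ∑ a, (1 - wt a * s - ℓ) := by
    have h7 := h_triangle U (vd ξ ℓ) (r.map A)
    have h8 : h U (vd ξ ℓ ⊔ r.map A) ≤ ∑ a, (1 - wt a * s - ℓ) := by
      rw [hU]
      refine (h_finsup_le Finset.univ _ _).trans ?_
      apply Finset.sum_le_sum
      intro a _
      exact (h_anti ((dg_le_vd ξ ℓ a).trans le_sup_left)).trans (h_dg_dg _ (hw a))
    linarith
  have h7 : h (P2.map (vd (Sum.elim q R) 1)) (r.map A) ≤ h U (r.map A) := by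
    refine (h_mono h5).trans ?_
    rw [h_sup_right_of_le le_rfl]
  have h8 : ∑ a : β ⊕ κ, (1 - wt a * s - ℓ) = ∑ a, (1 - wt a * s) - Fintype.card (β ⊕ κ) * ℓ := by
    rw [Finset.sum_sub_distrib, Finset.sum_const, nsmul_eq_mul]
    rfl
  linarith

end fresh

section rc

variable {q : β → QS S} {R : κ → QS S} {Q : κ → MvPolynomial β (QS S)} {wt : β ⊕ κ → ℝ} {ι : Type} [Fintype ι]
  {g : ι → QS S} {s : ℝ} {z : QS S} {w : ℝ} {J : MvPolynomial (β ⊕ κ) (QS S)}

/-- RECENTRING, all orders: the jets of the next coordinate at the second point -/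
theorem LB.recentre (hb : LB q R Q wt g s) (hs : 0 ≤ s) (hwt : ∀ a, 0 ≤ wt a) (h1 : ∀ a, wt a * s < 1)
    (hws : w * s ≤ 1) (hJ : LR q R Q z J g (w * s)) {W : Sp} (P0 P1 : Pj W S)
    (hc : ∀ i, P0.qs (g i) = P1.qs (g i)) (m : β ⊕ κ →₀ ℕ) :
    (Gp (bc P0 P1 q R Q) (fun k => MvPolynomial.map P0.qs (Q k)) (fun k => MvPolynomial.map P1.qs (Q k))
      (MvPolynomial.map P0.qs J) (MvPolynomial.map P1.qs J)).coeff m ∈ Id W (w * s - wgt wt m * s) := by
  classical
  obtain ⟨ℓ, hℓ, hℓ1, hℓw⟩ : ∃ ℓ : ℝ, 0 < ℓ ∧ ℓ ≤ 1 ∧ ∀ a, ℓ ≤ 1 - wt a * s := by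
    by_cases hne : Nonempty (β ⊕ κ)
    · obtain ⟨a, -, ha⟩ := Finset.exists_min_image Finset.univ (fun a => 1 - wt a * s)
        ⟨Classical.choice hne, Finset.mem_univ _⟩
      refine ⟨1 - wt a * s, by have := h1 a; linarith, ?_, fun b => ha b (Finset.mem_univ b)⟩
      have := mul_nonneg (hwt a) hs
      linarith
    · exact ⟨1, one_pos, le_rfl, fun a => absurd ⟨a⟩ hne⟩
  obtain ⟨D, r, P2, ξ, c1, _, hξ, _, _, hR⟩ := hb.fresh hs hwt hℓ.le hℓw g le_rfl P1
  obtain ⟨BJ, hBJ⟩ := exists_know J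
  choose BQ hBQ using fun k => exists_know (Q k)
  obtain ⟨B, hB⟩ : ∃ B : S.L, B = BJ ⊔ (Finset.univ.sup BQ ⊔ vd (Sum.elim q R) 1) := ⟨_, rfl⟩
  have hJB : J ∈ PK B := PK_mono (by rw [hB]; exact le_sup_left) hBJ
  have hQB : ∀ k, Q k ∈ PK B := fun k => PK_mono (by
    rw [hB]
    exact ((Finset.le_sup (Finset.mem_univ k)).trans le_sup_left).trans le_sup_right) (hBQ k)
  have hXB : ∀ a, dg (Sum.elim q R a) 1 ≤ B := fun a => by
    rw [hB]
    exact ((dg_le_vd (Sum.elim q R) 1 a).trans le_sup_right).trans le_sup_right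
  -- the three points
  have k12 : ∀ i, (r.comp P1).qs (g i) = P2.qs (g i) := by
    intro i
    rw [Pj.comp_qs]
    exact c1 i
  have k02 : ∀ i, (r.comp P0).qs (g i) = P2.qs (g i) := by
    intro i
    rw [Pj.comp_qs, hc]
    exact c1 i
  have k01 : ∀ i, (r.comp P0).qs (g i) = (r.comp P1).qs (g i) := fun i => (k02 i).trans (k12 i).symm
  obtain ⟨A, hA⟩ : ∃ A : W.L, A = P0.map B ⊔ P1.map B := ⟨_, rfl⟩
  have hA0 : (r.comp P0).map B ≤ r.map A := by
    rw [Pj.comp_map, hA]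
    exact Pj.map_mono _ le_sup_left
  have hA1 : (r.comp P1).map B ≤ r.map A := by
    rw [Pj.comp_map, hA]
    exact Pj.map_mono _ le_sup_right
  have hp0 : ∀ {σ : Type} {F : MvPolynomial σ (QS S)}, F ∈ PK B → MvPolynomial.map (r.comp P0).qs F ∈ PK (r.map A) :=
    fun hF => PK_mono hA0 (map_PK _ hF)
  have hp1 : ∀ {σ : Type} {F : MvPolynomial σ (QS S)}, F ∈ PK B → MvPolynomial.map (r.comp P1).qs F ∈ PK (r.map A) :=
    fun hF => PK_mono hA1 (map_PK _ hF)
  have hx0 : ∀ a, dg ((r.comp P0).qs (Sum.elim q R a)) 1 ≤ r.map A := fun a => by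
    rw [Pj.qs_dg]
    exact (Pj.map_mono _ (hXB a)).trans hA0
  have hx1 : ∀ a, dg ((r.comp P1).qs (Sum.elim q R a)) 1 ≤ r.map A := fun a => by
    rw [Pj.qs_dg]
    exact (Pj.map_mono _ (hXB a)).trans hA1
  have hdq : ∀ a, dg ((r.comp P1).qs (q a) - (r.comp P0).qs (q a)) 1 ≤ r.map A := fun a =>
    (dg_sub_le _ _ le_rfl).trans (sup_le (hx1 (Sum.inl a)) (hx0 (Sum.inl a)))
  have hy : ∀ a, dg (bc (r.comp P0) (r.comp P1) q R Q a) 1 ≤ r.map A := by
    rintro (a | k)
    · exact hdq a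
    · show dg (_ - _ - _) 1 ≤ _
      exact (dg_sub_le _ _ le_rfl).trans (sup_le ((dg_sub_le _ _ le_rfl).trans
        (sup_le (hx1 (Sum.inr k)) (hx0 (Sum.inr k)))) (QS.eval_mem (hp0 (hQB k)) _ le_rfl hdq))
  set Q0 : κ → MvPolynomial β (QS D) := fun k => MvPolynomial.map (r.comp P0).qs (Q k) with hQ0
  set Q1 : κ → MvPolynomial β (QS D) := fun k => MvPolynomial.map (r.comp P1).qs (Q k) with hQ1
  set y := bc (r.comp P0) (r.comp P1) q R Q with hydef
  set G := Gp y Q0 Q1 (MvPolynomial.map (r.comp P0).qs J) (MvPolynomial.map (r.comp P1).qs J) with hG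
  have hsb : ∀ a, sb y Q0 Q1 a ∈ PK (r.map A) := by
    rintro (a | k)
    · exact (PK _).add_mem (C_mem (hy _)) (X_mem _ _)
    · refine (PK _).add_mem ((PK _).add_mem (C_mem (hy _)) (X_mem _ _)) (rename_PK ?_ _)
      refine (PK _).sub_mem ((PK _).add_mem (C_mem (QS.eval_mem (hp0 (hQB k)) _ le_rfl fun a => hy _))
        (hp1 (hQB k))) ?_
      exact sbs_PK (hp0 (hQB k)) fun a => (PK _).add_mem (C_mem (hy _)) (X_mem _ _)
  have hGk : G ∈ PK (r.map A) :=
    (PK _).sub_mem ((PK _).sub_mem (sbs_PK (hp0 hJB) hsb) (C_mem (QS.eval_mem (hp0 hJB) _ le_rfl hy))) (hp1 hJB)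
  have hGe : MvPolynomial.eval (fun a => sc D (wt a * s) * ξ a) G ∈ Id D (w * s) := by
    have e1 : (fun a => sc D (wt a * s) * ξ a) = bc (r.comp P1) P2 q R Q := by
      funext a
      exact (hξ a).symm
    have r01 := hJ D _ _ k01
    have r02 := hJ D _ _ k02
    have r12 := hJ D _ _ k12
    have e2 : MvPolynomial.eval (bc (r.comp P1) P2 q R Q) G =
        MvPolynomial.eval (bc (r.comp P0) P2 q R Q) (MvPolynomial.map (r.comp P0).qs J) -
        MvPolynomial.eval y (MvPolynomial.map (r.comp P0).qs J) -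
        MvPolynomial.eval (bc (r.comp P1) P2 q R Q) (MvPolynomial.map (r.comp P1).qs J) := by
      rw [hG]
      unfold Gp
      rw [map_sub, map_sub, MvPolynomial.eval_C, eval_sbs]
      congr 4
      funext a
      exact (bc_add _ _ _ q R Q a).symm
    rw [e1, e2]
    have h3 := (Id D (w * s)).sub_mem ((Id D (w * s)).add_mem r01 r12) r02
    refine (congrArg (· ∈ Id D (w * s)) ?_).mp h3
    ring
  have h2 := small_raw hwt hs hℓ hℓ1 (hR A) hws le_rfl (PKr_of_PK le_rfl hGk) hGe m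
  have hle : w * s - wgt wt m * s ≤ 1 := by
    have := mul_nonneg (wgt_nonneg hwt m) hs
    linarith
  rw [← r.qs_mem_Id hle, ← MvPolynomial.coeff_map, map_Gp]
  have e3 : (fun a => r.qs (bc P0 P1 q R Q a)) = y := by
    funext a
    exact (bc_comp r P0 P1 q R Q a).symm
  simp only [map_pj_comp]
  rw [e3]
  exact h2

/-- (RC): the first vertical jets of the next coordinate -/
theorem LB.rc (hb : LB q R Q wt g s) (hs : 0 ≤ s) (hwt : ∀ a, 0 ≤ wt a) (h1 : ∀ a, wt a * s < 1)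
    (hws : w * s ≤ 1) (hQ : ∀ k, (Q k).coeff 0 = 0) (hJ : LR q R Q z J g (w * s)) {W : Sp} (P0 P1 : Pj W S)
    (hc : ∀ i, P0.qs (g i) = P1.qs (g i)) (l : κ) :
    P1.qs (J.coeff (Finsupp.single (Sum.inr l) 1)) - MvPolynomial.eval (bc P0 P1 q R Q)
      (MvPolynomial.pderiv (Sum.inr l) (MvPolynomial.map P0.qs J)) ∈ Id W ((w - wt (Sum.inr l)) * s) := by
  have h2 := hb.recentre hs hwt h1 hws hJ P0 P1 hc (Finsupp.single (Sum.inr l) 1)
  rw [Gp_single _ _ _ (fun k => by rw [MvPolynomial.coeff_map, hQ k, map_zero]), wgt_single,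
    MvPolynomial.coeff_map] at h2
  have h3 := (Ideal.neg_mem_iff _).mpr h2
  rw [neg_sub, ← sub_mul] at h3
  exact h3

end rc

section dat

/-- (RC) for every pair of points with the same literal label -/
theorem pair_rc {D : Dat S β κ} {s : ℝ} {ι : Type} [Fintype ι] {g : ι → QS S} (hb : LB D.q D.R D.Pj D.wt g s)
    (hs : 0 ≤ s) (h1 : ∀ a, D.wt a * s < 1) (hws : D.w * s ≤ 1) (hJ : LR D.q D.R D.Pj D.z D.J g (D.w * s))
    (k : Pair D s) (hc : ∀ i, k.P0.qs (g i) = k.P1.qs (g i)) : k.RC := by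
  intro l
  have hwt : ∀ a, 0 ≤ D.wt a := fun a => (D.wpos a).le
  have h2 := hb.rc hs hwt h1 hws D.Pj0 hJ k.P0 k.P1 hc l
  have h3 : ∀ a, k.raw a - bc k.P0 k.P1 D.q D.R D.Pj a ∈ Id k.W (D.w * s) := by
    have hq : ∀ a, sc k.W (D.wt (Sum.inl a) * s) * k.ξ (Sum.inl a) = k.P1.qs (D.q a) - k.P0.qs (D.q a) := by
      intro a
      rw [k.dq a]
      ring
    rintro (a | l')
    · show sc _ _ * _ - (k.P1.qs (D.q a) - k.P0.qs (D.q a)) ∈ _
      rw [hq, sub_self]
      exact Ideal.zero_mem _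
    · have h4 := (Ideal.neg_mem_iff _).mpr (k.dR l')
      simp only [hq] at h4
      refine (congrArg (· ∈ Id k.W (D.w * s)) ?_).mp h4
      show _ = sc k.W (D.wt (Sum.inr l') * s) * k.ξ (Sum.inr l') - (k.P1.qs (D.R l') - k.P0.qs (D.R l') - _)
      ring
  have h4 := eval_sub_mem (Id k.W (D.w * s)) (MvPolynomial.pderiv (Sum.inr l) (MvPolynomial.map k.P0.qs D.J)) _ _ h3
  have hle : (D.w - D.wv l) * s ≤ D.w * s :=
    mul_le_mul_of_nonneg_right (sub_le_self _ (hwt _)) hs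
  have h5 := Ideal.sub_mem _ h2 (Id_mono hle h4)
  refine (congrArg (· ∈ Id k.W ((D.w - D.wv l) * s)) ?_).mp h5
  show _ = k.P1.qs (D.J.coeff _) - _
  ring

/-- two points with the same literal label form a pair -/
def mkPair {D : Dat S β κ} {s : ℝ} {ι : Type} [Fintype ι] {g : ι → QS S} (hb : LB D.q D.R D.Pj D.wt g s)
    (hs : 0 ≤ s) (h1 : ∀ a, D.wt a * s ≤ 1) (hJ : LR D.q D.R D.Pj D.z D.J g (D.w * s)) {W : Sp} (P0 P1 : Pj W S)
    (hc : ∀ i, P0.qs (g i) = P1.qs (g i)) : Pair D s :=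
  have hex := fun a => exists_div' (mul_nonneg (D.wpos a).le hs) (h1 a) (hb.mem W P0 P1 hc a)
  { W := W
    P0 := P0
    P1 := P1
    ξ := fun a => (hex a).choose
    dq := by
      intro a
      rw [← (hex (Sum.inl a)).choose_spec.1]
      show _ = _ + (P1.qs (D.q a) - P0.qs (D.q a))
      ring
    dR := by
      intro k
      have e1 : (fun a => sc W (D.wt (Sum.inl a) * s) * (hex (Sum.inl a)).choose) =
          fun a => P1.qs (D.q a) - P0.qs (D.q a) := by
        funext a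
        exact (hex (Sum.inl a)).choose_spec.1.symm
      rw [e1, ← (hex (Sum.inr k)).choose_spec.1]
      have e2 : P1.qs (D.R k) - (P0.qs (D.R k) + MvPolynomial.eval (fun a => P1.qs (D.q a) - P0.qs (D.q a))
          (MvPolynomial.map P0.qs (D.Pj k)) + bc P0 P1 D.q D.R D.Pj (Sum.inr k)) = 0 := by
        show _ - (_ + _ + (_ - _ - _)) = _
        ring
      rw [e2]
      exact Ideal.zero_mem _
    hW := by
      have e1 : (fun a => sc W (D.wt a * s) * (hex a).choose) = bc P0 P1 D.q D.R D.Pj := by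
        funext a
        exact (hex a).choose_spec.1.symm
      rw [e1]
      exact hJ W P0 P1 hc }

end dat

end

end Pool.Agent.Helper79.WLK
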