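import Pool.Agent.Helper79.WLK.Chn

/-! Walks with realness up to an error, from words: composition of the edges of a word inside one space. -/

set_option autoImplicit false
set_option linter.unusedSectionVars false

namespace Pool.Agent.Helper79.WLK

open Finset Filter Topology Pool.Agent.Helper69.RK Pool.Agent.Helper31.EC Pool.Agent.Helper31.EC.Sp
open Pool.Agent.Helper31.EC.QS Pool.Agent.Helper57.TA Pool.Agent.Helper21.DO Pool.Agent.Helper38.NS
open Pool.Agent.Helper79.JET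

noncomputable section

section alg

variable {A : Type*} [CommRing A]

theorem deg_aeval {σ τ : Type*} (φ : σ → MvPolynomial τ A) (hφ : ∀ a, (φ a).totalDegree ≤ 1)
    (P : MvPolynomial σ A) : (MvPolynomial.aeval φ P).totalDegree ≤ P.totalDegree := by
  rw [MvPolynomial.aeval_def, MvPolynomial.eval₂_eq]
  refine (MvPolynomial.totalDegree_finsetSum _ _).trans (Finset.sup_le fun m hm => ?_)
  refine (MvPolynomial.totalDegree_mul _ _).trans ?_
  rw [MvPolynomial.algebraMap_eq, MvPolynomial.totalDegree_C, zero_add]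
  refine (MvPolynomial.totalDegree_finsetProd _ _).trans ?_
  have h1 : ∑ i ∈ m.support, (φ i ^ m i).totalDegree ≤ m.sum fun _ e => e := by
    unfold Finsupp.sum
    apply Finset.sum_le_sum
    intro i _
    refine (MvPolynomial.totalDegree_pow _ _).trans ?_
    exact (Nat.mul_le_mul_left _ (hφ i)).trans (le_of_eq (Nat.mul_one _))
  exact h1.trans (MvPolynomial.le_totalDegree hm)

theorem deg_CX {τ : Type*} (x : A) (a : τ) :
    (MvPolynomial.C x + MvPolynomial.X a : MvPolynomial τ A).totalDegree ≤ 1 := by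
  refine (MvPolynomial.totalDegree_add _ _).trans (max_le ?_ ?_)
  · rw [MvPolynomial.totalDegree_C]
    exact Nat.zero_le 1
  · by_cases h : Nontrivial A
    · rw [MvPolynomial.totalDegree_X]
    · have : Subsingleton A := not_nontrivial_iff_subsingleton.mp h
      rw [Subsingleton.elim (MvPolynomial.X a : MvPolynomial τ A) 0, MvPolynomial.totalDegree_zero]
      exact Nat.zero_le 1

theorem deg_X {τ : Type*} (a : τ) : (MvPolynomial.X a : MvPolynomial τ A).totalDegree ≤ 1 := by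
  have h := deg_CX (0 : A) a
  rwa [map_zero, zero_add] at h

theorem deg_sh {σ : Type*} (x : σ → A) (J : MvPolynomial σ A) : (sh x J).totalDegree ≤ J.totalDegree :=
  deg_aeval _ (fun a => deg_CX (x a) a) J

end alg

variable {S : Sp} {β κ : Type} [Fintype β] [Fintype κ]

/-- an edge whose transport has bounded degree -/
def EdgD (D : Dat S β κ) (r : ℝ) (d : ℕ) {W : Sp} (P P' : Pj W S) (A : W.L) : Prop :=
  ∃ E : Edg D r P P' A, E.p.totalDegree ≤ d

namespace EdgD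

variable {D : Dat S β κ} {r : ℝ} {d : ℕ} {W : Sp}

theorem refl (P : Pj W S) (A : W.L) : EdgD D r d P P A :=
  ⟨Edg.refl P A, by
    show (0 : MvPolynomial κ (QS W)).totalDegree ≤ d
    rw [MvPolynomial.totalDegree_zero]
    exact Nat.zero_le d⟩

theorem mono {P P' : Pj W S} {A B : W.L} (h : EdgD D r d P P' A) (hAB : A ≤ B) : EdgD D r d P P' B :=
  ⟨h.choose.mono hAB, h.choose_spec⟩

theorem anti {P P' : Pj W S} {A : W.L} (h : EdgD D r d P P' A) {r' : ℝ} (hr : r' ≤ r) : EdgD D r' d P P' A :=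
  ⟨h.choose.anti hr, h.choose_spec⟩

theorem comp {P P' P'' : Pj W S} {A : W.L} (h : EdgD D r d P P' A) (h' : EdgD D r d P' P'' A) :
    EdgD D r d P P'' A := by
  obtain ⟨E, hE⟩ := h
  obtain ⟨E', hE'⟩ := h'
  exact ⟨E.comp E', (MvPolynomial.totalDegree_add _ _).trans (max_le hE ((deg_sh _ _).trans hE'))⟩

theorem pull {P P' : Pj W S} {A : W.L} (h : EdgD D r d P P' A) {V : Sp} (u : Pj V W) :
    EdgD D r d (u.comp P) (u.comp P') (u.map A) := by
  obtain ⟨E, hE⟩ := h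
  refine ⟨E.pull u, ?_⟩
  refine le_trans ?_ hE
  exact Finset.sup_mono (MvPolynomial.support_map_subset _ _)

/-- the same point -/
theorem same {P P' : Pj W S} (A : W.L) (hq : ∀ a, P'.qs (D.q a) = P.qs (D.q a))
    (hR : ∀ k, P'.qs (D.R k) = P.qs (D.R k)) (hz : P'.qs D.z = P.qs D.z) (hc : ∀ l, P'.qs (D.c l) = P.qs (D.c l)) :
    EdgD D r d P P' A := by
  refine ⟨{ p := 0
            e := fun _ => 0
            dq := fun a => by
              rw [hq, sub_self]
              exact (Kn W 1 le_rfl A).zero_mem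
            ek := fun _ => (Kn W 1 le_rfl A).zero_mem
            dR := fun k => by
              rw [hR, sub_self, sub_zero]
              exact Ideal.zero_mem _
            pk := (PK A).zero_mem
            hp := by
              rw [map_zero, hz, sub_self, sub_zero]
              exact Ideal.zero_mem _
            hT := fun l => by
              rw [map_zero, map_zero, hc, sub_self, sub_zero]
              exact Ideal.zero_mem _ }, ?_⟩
  show (0 : MvPolynomial κ (QS W)).totalDegree ≤ d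
  rw [MvPolynomial.totalDegree_zero]
  exact Nat.zero_le d

end EdgD

/-- chains -/
theorem chainD {D : Dat S β κ} {r : ℝ} {d : ℕ} {W : Sp} {A : W.L} : ∀ {K : ℕ} (P : Fin (K + 1) → Pj W S)
    (_ : ∀ j : Fin K, EdgD D r d (P j.castSucc) (P j.succ) A), EdgD D r d (P 0) (P (Fin.last K)) A
  | 0, P, _ => EdgD.refl (P 0) A
  | K + 1, P, h => by
    have h1 := chainD (fun j : Fin (K + 1) => P j.castSucc) (fun j => h j.castSucc)
    exact h1.comp (h (Fin.last K))

/-- a common extension for finitely many edges -/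
theorem common {D : Dat S β κ} {r : ℝ} {d : ℕ} : ∀ {K : ℕ} {W : Sp} (P P' : Fin K → Pj W S) (A : Fin K → W.L)
    (_ : ∀ (j : Fin K) (V : Sp) (u : Pj V W), ∃ (V' : Sp) (u' : Pj V' V),
      EdgD D r d (u'.comp (u.comp (P j))) (u'.comp (u.comp (P' j))) (u'.map (u.map (A j)))),
    ∃ (V : Sp) (u : Pj V W), ∀ j, EdgD D r d (u.comp (P j)) (u.comp (P' j)) (u.map (A j))
  | 0, W, _, _, _, _ => ⟨W, Pj.id W, fun j => j.elim0⟩
  | K + 1, W, P, P', A, h => by
    obtain ⟨V, u, hu⟩ := common (fun j : Fin K => P j.castSucc) (fun j => P' j.castSucc) (fun j => A j.castSucc)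
      (fun j => h j.castSucc)
    obtain ⟨V', u', hu'⟩ := h (Fin.last K) V u
    refine ⟨V', u'.comp u, ?_⟩
    intro j
    refine Fin.lastCases ?_ (fun j => ?_) j
    · rw [Pj.comp_map]
      exact hu'
    · rw [Pj.comp_map]
      exact (hu j).pull u'

/-- information of the coefficients -/
def cf (d : ℕ) {W : Sp} (p : MvPolynomial κ (QS W)) : W.L := by
  classical
  exact vd (fun m : κ → Fin (d + 1) => p.coeff (Finsupp.equivFunOnFinite.symm fun k => (m k : ℕ))) 1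

theorem cf_le {d : ℕ} {W : Sp} {p : MvPolynomial κ (QS W)} {A : W.L} (h : p ∈ PK A) : cf d p ≤ A := by
  classical
  unfold cf
  rw [vd_le]
  intro m
  exact h _

theorem exp_le {d : ℕ} {W : Sp} {p : MvPolynomial κ (QS W)} (hd : p.totalDegree ≤ d) :
    ∀ m, p.coeff m ≠ 0 → ∀ k, m k ≤ d := by
  intro m hm k
  have h2 := (MvPolynomial.le_totalDegree (MvPolynomial.mem_support_iff.mpr hm)).trans hd
  by_cases hk : m k = 0
  · rw [hk]
    exact Nat.zero_le d
  · refine le_trans ?_ h2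
    exact Finset.single_le_sum (f := fun i => m i) (fun _ _ => Nat.zero_le _) (Finsupp.mem_support_iff.mpr hk)

theorem mem_cf {d : ℕ} {W : Sp} {p : MvPolynomial κ (QS W)} (hd : ∀ m, p.coeff m ≠ 0 → ∀ k, m k ≤ d) :
    p ∈ PK (cf d p) := by
  classical
  intro m
  by_cases hm : p.coeff m = 0
  · rw [hm]
    exact (Kn W 1 le_rfl _).zero_mem
  · have h1 : ∀ k, m k ≤ d := hd m hm
    have h3 : m = Finsupp.equivFunOnFinite.symm fun k => ((⟨m k, Nat.lt_succ_of_le (h1 k)⟩ : Fin (d + 1)) : ℕ) := by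
      ext k
      rfl
    have h4 := dg_le_vd (fun m : κ → Fin (d + 1) => p.coeff (Finsupp.equivFunOnFinite.symm fun k => (m k : ℕ))) 1
      (fun k => ⟨m k, Nat.lt_succ_of_le (h1 k)⟩)
    beta_reduce at h4
    rw [← h3] at h4
    exact h4

/-- WALKS with realness up to an error `th`: finitely many relations, a bounded number of functions -/
structure Wth (D : Dat S β κ) (s ℓ th : ℝ) (d : ℕ) extends Pair D s where
  p : MvPolynomial κ (QS W)
  pd : ∀ m, p.coeff m ≠ 0 → ∀ k, m k ≤ d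
  hp : P1.qs D.z - P0.qs D.z - MvPolynomial.eval (fun k => P0.qs (D.R k)) p ∈ Id W (D.w * s)
  ind : I (vd ξ 1 ⊔ cf d p) (P0.map D.inf) (P0.map D.qi) = 0
  real : Fintype.card (β ⊕ κ) * ℓ - th ≤ h (vd ξ ℓ) (P0.map D.inf)

/-- (T) -/
def Wth.T {D : Dat S β κ} {s ℓ th : ℝ} {d : ℕ} (k : Wth D s ℓ th d) : Prop := ∀ l,
  k.P1.qs (D.c l) - k.P0.qs (D.c l) -
    MvPolynomial.eval (fun i => k.P0.qs (D.R i)) (MvPolynomial.pderiv l k.p) ∈ Id k.W (D.w * s)

/-- no error -/
def Wth.walk {D : Dat S β κ} {s ℓ : ℝ} {d : ℕ} (k : Wth D s ℓ 0 d) (hℓ : 0 < ℓ) (hℓ1 : ℓ ≤ 1) : Walk D s :=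
  { k.toPair with
    om := vd k.ξ 1 ⊔ cf d k.p
    p := k.p
    ind := k.ind
    kn := fun a => ((dg_le_vd k.ξ 1 a).trans le_sup_left).trans le_sup_left
    pk := PK_mono (le_sup_right.trans le_sup_left) (mem_cf k.pd)
    hp := k.hp
    ℓ := ℓ
    ℓ0 := hℓ
    ℓ1 := hℓ1
    real := Rt.of_ge hℓ.le (by
      have h := k.real
      rwa [sub_zero] at h) }

theorem exists_ell2 {D : Dat S β κ} {s : ℝ} (hs : 0 < s) (h1 : ∀ a, D.wt a * s < 1) :
    ∃ ℓ : ℝ, 0 < ℓ ∧ ℓ ≤ 1 ∧ (∀ a, ℓ ≤ 1 - D.wt a * s) ∧ ∀ k, ℓ ≤ (D.w - D.wv k) * s := by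
  obtain ⟨ℓ, a1, a2, a3⟩ := exists_ell (fun a => (D.wpos a).le) hs.le h1
  obtain ⟨δ, hδ, hδw⟩ : ∃ δ : ℝ, 0 < δ ∧ ∀ k, δ ≤ (D.w - D.wv k) * s := by
    by_cases hne : Nonempty κ
    · obtain ⟨k, -, hk⟩ := Finset.exists_min_image Finset.univ (fun k => (D.w - D.wv k) * s)
        ⟨Classical.choice hne, Finset.mem_univ _⟩
      exact ⟨(D.w - D.wv k) * s, mul_pos (sub_pos.mpr (D.wlt k)) hs, fun b => hk b (Finset.mem_univ b)⟩
    · exact ⟨1, one_pos, fun a => absurd ⟨a⟩ hne⟩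
  exact ⟨min ℓ δ, lt_min a1 hδ, (min_le_left _ _).trans a2, fun a => (min_le_left _ _).trans (a3 a),
    fun k => (min_le_right _ _).trans (hδw k)⟩

section main

variable {D : Dat S β κ} {s : ℝ} {ι : Type} [Fintype ι] {g : ι → QS S}

/-- walks from chains of edges -/
theorem wth_of_edg (hb : LB D.q D.R D.Pj D.wt g s)
    (hs : 0 < s) (h1 : ∀ a, D.wt a * s < 1) (hws : D.w * s ≤ 1) (hJ : LR D.q D.R D.Pj D.z D.J g (D.w * s))
    {W : Sp} {P0 P1 : Pj W S} (hc : ∀ i, P0.qs (g i) = P1.qs (g i)) (om : W.L) {d : ℕ}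
    (hE : EdgD D (D.w * s) d P0 P1 (om ⊔ P0.map D.qi)) (ind : I om (P0.map D.inf) (P0.map D.qi) = 0)
    {ξ₀ : β ⊕ κ → QS W} {ℓ th : ℝ} (hℓ1 : ∀ a, ℓ ≤ 1 - D.wt a * s)
    (hℓ2 : ∀ k, ℓ ≤ (D.w - D.wv k) * s) (hℓ3 : ℓ ≤ 1)
    (hξ₀ : ∀ a, bc P0 P1 D.q D.R D.Pj a = sc W (D.wt a * s) * ξ₀ a)
    (hR : Fintype.card (β ⊕ κ) * ℓ - th ≤ h (vd ξ₀ ℓ) (P0.map D.inf)) :
    ∃ k : Wth D s ℓ th d, k.T ∧ k.RC := by
  classical
  obtain ⟨E, hd⟩ := hE
  have hwt : ∀ a, 0 ≤ D.wt a := fun a => (D.wpos a).le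
  have hu0 : ∀ a, 0 ≤ D.wt a * s := fun a => mul_nonneg (hwt a) hs.le
  -- known box coordinates
  set x : β → QS W := fun a => P1.qs (D.q a) - P0.qs (D.q a) with hx
  set y : β ⊕ κ → QS W := Sum.elim x (fun k => E.e k - MvPolynomial.eval x (MvPolynomial.map P0.qs (D.Pj k))) with hy
  have hyb : ∀ k, y (Sum.inr k) - bc P0 P1 D.q D.R D.Pj (Sum.inr k) ∈ Id W (D.w * s) := by
    intro k
    refine (congrArg (· ∈ Id W (D.w * s)) ?_).mp ((Ideal.neg_mem_iff _).mpr (E.dR k))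
    show _ = (E.e k - _) - (P1.qs (D.R k) - P0.qs (D.R k) - _)
    ring
  have hyb0 : ∀ a, y (Sum.inl a) = bc P0 P1 D.q D.R D.Pj (Sum.inl a) := fun a => rfl
  have hyk : ∀ a, dg (y a) 1 ≤ om ⊔ P0.map D.qi := by
    rintro (a | k)
    · exact E.dq a
    · exact (dg_sub_le _ _ le_rfl).trans (sup_le (E.ek k)
        (QS.eval_mem (PK_mono le_sup_right (map_PK P0 (D.Pjk k))) _ le_rfl E.dq))
  have hm := hb.mem W P0 P1 hc
  have hym : ∀ a, y a ∈ Id W (D.wt a * s) := by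
    rintro (a | k)
    · exact hm (Sum.inl a)
    · have h2 := Id_mono (mul_le_mul_of_nonneg_right (D.wlt k).le hs.le) (hyb k)
      have h3 := Ideal.add_mem _ h2 (hm (Sum.inr k))
      rwa [sub_add_cancel] at h3
  choose ξ hξ hξk using fun a => exists_div' (hu0 a) (h1 a).le (hym a)
  -- the free digits
  have hclose : ∀ a, y a - bc P0 P1 D.q D.R D.Pj a ∈ Id W (D.w * s) := by
    rintro (a | k)
    · rw [hyb0, sub_self]
      exact Ideal.zero_mem _
    · exact hyb k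
  have hdg : ∀ a, dg (ξ a) ℓ = dg (ξ₀ a) ℓ := by
    rintro (a | k)
    · have h2 : sc W (D.wt (Sum.inl a) * s) * (ξ (Sum.inl a) - ξ₀ (Sum.inl a)) ∈ Id W 1 := by
        rw [mul_sub, ← hξ, ← hξ₀, hyb0, sub_self]
        exact Ideal.zero_mem _
      have h3 := mem_of_sc_mul (hu0 _) le_rfl h2
      exact dg_eq_of_sub_mem h3 (hℓ1 _) hℓ3
    · have h2 : sc W (D.wt (Sum.inr k) * s) * (ξ (Sum.inr k) - ξ₀ (Sum.inr k)) ∈ Id W (D.w * s) := by
        rw [mul_sub, ← hξ, ← hξ₀]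
        exact hyb k
      have h3 := mem_of_sc_mul (hu0 _) hws h2
      refine dg_eq_of_sub_mem h3 ((hℓ2 k).trans (le_of_eq ?_)) hℓ3
      show (D.w - D.wt (Sum.inr k)) * s = _
      ring
  have hvd : vd ξ ℓ = vd ξ₀ ℓ := by
    unfold vd
    congr 1
    funext a
    exact hdg a
  -- the walk
  have hraw : (fun a => sc W (D.wt a * s) * ξ a) = y := by
    funext a
    exact (hξ a).symm
  have hraw1 : (fun a => sc W (D.wt (Sum.inl a) * s) * ξ (Sum.inl a)) = x := by
    funext a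
    exact (hξ (Sum.inl a)).symm
  let k : Wth D s ℓ th d :=
    { W := W
      P0 := P0
      P1 := P1
      ξ := ξ
      dq := by
        intro a
        rw [← hξ (Sum.inl a)]
        show _ = _ + (P1.qs (D.q a) - P0.qs (D.q a))
        ring
      dR := by
        intro k
        rw [hraw1, ← hξ (Sum.inr k)]
        refine (congrArg (· ∈ Id W (D.w * s)) ?_).mp (E.dR k)
        show _ = _ - (_ + _ + (E.e k - _))
        ring
      hW := by
        rw [hraw]
        have h2 := hJ W P0 P1 hc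
        have h3 := eval_sub_mem (Id W (D.w * s)) (MvPolynomial.map P0.qs D.J) _ _ hclose
        refine (congrArg (· ∈ Id W (D.w * s)) ?_).mp (Ideal.sub_mem _ h2 h3)
        ring
      p := E.p
      pd := exp_le hd
      hp := E.hp
      ind := by
        refine I_zero_mono ind (sup_le ?_ (cf_le E.pk)) le_sup_left
        rw [vd_le]
        intro a
        exact (hξk a).trans (hyk a)
      real := by
        rw [hvd]
        exact hR }
  exact ⟨k, E.hT, pair_rc hb hs.le h1 hws hJ k.toPair hc⟩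

/-- realness of the box coordinates of the end point, up to an error -/
theorem real_end (hb : LB D.q D.R D.Pj D.wt g s) (hs : 0 < s) {W : Sp} {P0 P1 : Pj W S}
    (hc : ∀ i, P0.qs (g i) = P1.qs (g i)) {O : S.L} (hO : D.inf ≤ O)
    {th : ℝ} (real : I (P1.map O) (P0.map O) (P0.map (vd g 1)) ≤ th)
    {ξ₀ : β ⊕ κ → QS W} {ℓ : ℝ} (hℓ1 : ∀ a, ℓ ≤ 1 - D.wt a * s)
    (hξ₀ : ∀ a, bc P0 P1 D.q D.R D.Pj a = sc W (D.wt a * s) * ξ₀ a) (h1 : ∀ a, D.wt a * s < 1) :
    Fintype.card (β ⊕ κ) * ℓ - th ≤ h (vd ξ₀ ℓ) (P0.map D.inf) := by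
  classical
  have hwt : ∀ a, 0 ≤ D.wt a := fun a => (D.wpos a).le
  have hu0 : ∀ a, 0 ≤ D.wt a * s := fun a => mul_nonneg (hwt a) hs.le
  have hqO : vd D.q 1 ≤ O := D.qinf.trans hO
  have hRO : vd D.R 1 ≤ O := D.Rinf.trans hO
  have hXO : vd (Sum.elim D.q D.R) 1 ≤ O := by
    rw [vd_le]
    rintro (a | k)
    · exact (dg_le_vd D.q 1 a).trans hqO
    · exact (dg_le_vd D.R 1 k).trans hRO
  obtain ⟨A, hA⟩ : ∃ A : W.L, A = P0.map O ⊔ P0.map (vd g 1) := ⟨_, rfl⟩
  have hOA : P0.map O ≤ A := by rw [hA]; exact le_sup_left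
  have e2 : P1.map (vd g 1) = P0.map (vd g 1) := by
    rw [← P1.qs_vd, ← P0.qs_vd]
    exact (vd_congr hc 1).symm
  have h3 : ∑ a, (1 - D.wt a * s) - th ≤ h (P1.map (vd (Sum.elim D.q D.R) 1)) A := by
    have h4 : I (P1.map (vd (Sum.elim D.q D.R) 1)) (P0.map O) (P0.map (vd g 1)) ≤ th :=
      (I_mono ((Pj.map_mono _ hXO).trans le_sup_left) le_sup_left).trans real
    rw [I_eq, ← e2, Pj.h_map, hb.full, e2, ← hA] at h4
    linarith
  obtain ⟨U, hU⟩ : ∃ U : W.L, U = Finset.univ.sup fun a => dg (ξ₀ a) (1 - D.wt a * s) := ⟨_, rfl⟩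
  have hUa : ∀ a, dg (bc P0 P1 D.q D.R D.Pj a) 1 ≤ U := by
    intro a
    rw [hξ₀ a]
    refine (dg_sc_mul (hu0 a) (h1 a).le le_rfl _).trans ?_
    rw [hU]
    exact Finset.le_sup (f := fun a => dg (ξ₀ a) (1 - D.wt a * s)) (Finset.mem_univ a)
  have hpt : ∀ a, dg (P0.qs (Sum.elim D.q D.R a)) 1 ≤ A := by
    intro a
    rw [P0.qs_dg]
    exact (Pj.map_mono _ ((dg_le_vd (Sum.elim D.q D.R) 1 a).trans hXO)).trans hOA
  have h5 : P1.map (vd (Sum.elim D.q D.R) 1) ≤ U ⊔ A := by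
    rw [← P1.qs_vd, vd_le]
    rintro (a | k)
    · have e4 : P1.qs (D.q a) = P0.qs (D.q a) + bc P0 P1 D.q D.R D.Pj (Sum.inl a) := by
        show _ = _ + (P1.qs (D.q a) - P0.qs (D.q a))
        ring
      show dg (P1.qs (D.q a)) 1 ≤ _
      rw [e4]
      exact (dg_add_le _ _ le_rfl).trans (sup_le ((hpt (Sum.inl a)).trans le_sup_right) ((hUa _).trans le_sup_left))
    · have e4 : P1.qs (D.R k) = P0.qs (D.R k) + bc P0 P1 D.q D.R D.Pj (Sum.inr k) +
          MvPolynomial.eval (fun a => P1.qs (D.q a) - P0.qs (D.q a)) (MvPolynomial.map P0.qs (D.Pj k)) := by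
        show _ = _ + (P1.qs (D.R k) - P0.qs (D.R k) - _) + _
        ring
      show dg (P1.qs (D.R k)) 1 ≤ _
      rw [e4]
      refine (dg_add_le _ _ le_rfl).trans (sup_le ((dg_add_le _ _ le_rfl).trans (sup_le
        ((hpt (Sum.inr k)).trans le_sup_right) ((hUa _).trans le_sup_left))) ?_)
      have h6 : MvPolynomial.map P0.qs (D.Pj k) ∈ PK A :=
        PK_mono ((Pj.map_mono _ hqO).trans hOA) (map_PK P0 (D.Pjk k))
      exact QS.eval_mem h6 _ le_sup_right fun a => (hUa (Sum.inl a)).trans le_sup_left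
  have h6 : h U A ≤ h (vd ξ₀ ℓ) A + ∑ a, (1 - D.wt a * s - ℓ) := by
    have h7 := h_triangle U (vd ξ₀ ℓ) A
    have h8 : h U (vd ξ₀ ℓ ⊔ A) ≤ ∑ a, (1 - D.wt a * s - ℓ) := by
      rw [hU]
      refine (h_finsup_le Finset.univ _ _).trans ?_
      apply Finset.sum_le_sum
      intro a _
      exact (h_anti ((dg_le_vd ξ₀ ℓ a).trans le_sup_left)).trans (h_dg_dg _ (hℓ1 a))
    linarith
  have h7 : h (P1.map (vd (Sum.elim D.q D.R) 1)) A ≤ h U A := by
    refine (h_mono h5).trans ?_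
    rw [h_sup_right_of_le le_rfl]
  have h8 : ∑ a : β ⊕ κ, (1 - D.wt a * s - ℓ) = ∑ a, (1 - D.wt a * s) - Fintype.card (β ⊕ κ) * ℓ := by
    rw [Finset.sum_sub_distrib, Finset.sum_const, nsmul_eq_mul]
    rfl
  have h9 : h (vd ξ₀ ℓ) A ≤ h (vd ξ₀ ℓ) (P0.map D.inf) := h_anti ((Pj.map_mono _ hO).trans hOA)
  linarith

end main

section word

/-- edges from transports: the flat coordinates move by known functions of the times, `z` by a known polynomial -/
theorem edgD_of_tr {D : Dat S β κ} {B : S.L} {t : QS S} (hqb : D.qi ≤ B ⊔ dg t 1) {W : Sp} {P P' : Pj W S}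
    (hBB : P'.map B ≤ P.map B) {r : ℝ} (G : κ → MvPolynomial (Fin 2) (QS W)) (p : MvPolynomial (κ ⊕ Fin 2) (QS W))
    (Gk : ∀ k, G k ∈ PK (P.map B)) (pk : p ∈ PK (P.map B))
    (hG : ∀ k, P'.qs (D.R k) - P.qs (D.R k) - MvPolynomial.eval ![P.qs t, P'.qs t] (G k) ∈ Id W r)
    (hp : P'.qs D.z - P.qs D.z - MvPolynomial.eval (Sum.elim (fun k => P.qs (D.R k)) ![P.qs t, P'.qs t]) p ∈ Id W r)
    (hT : ∀ l, P'.qs (D.c l) - P.qs (D.c l) - MvPolynomial.eval (Sum.elim (fun k => P.qs (D.R k)) ![P.qs t, P'.qs t])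
      (MvPolynomial.pderiv (Sum.inl l) p) ∈ Id W r) {d : ℕ} (hd : p.totalDegree ≤ d) :
    EdgD D r d P P' (P.map (B ⊔ dg t 1) ⊔ dg (P'.qs t) 1) := by
  classical
  obtain ⟨A, hA⟩ : ∃ A : W.L, A = P.map (B ⊔ dg t 1) ⊔ dg (P'.qs t) 1 := ⟨_, rfl⟩
  have hBA : P.map B ≤ A := by
    rw [hA]
    exact (Pj.map_mono _ le_sup_left).trans le_sup_left
  have htA : ∀ i, dg ((![P.qs t, P'.qs t] : Fin 2 → QS W) i) 1 ≤ A := by
    intro i
    refine Fin.cases ?_ (fun i => ?_) i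
    · show dg (P.qs t) 1 ≤ A
      rw [P.qs_dg, hA]
      exact (Pj.map_mono _ le_sup_right).trans le_sup_left
    · have : i = 0 := Subsingleton.elim _ _
      subst this
      show dg (P'.qs t) 1 ≤ A
      rw [hA]
      exact le_sup_right
  have hq0 : P.map D.qi ≤ A := by
    rw [hA]
    exact (Pj.map_mono _ hqb).trans le_sup_left
  have hq1 : P'.map D.qi ≤ A := by
    refine (Pj.map_mono _ hqb).trans ?_
    rw [Pj.map_sup]
    refine sup_le (hBB.trans hBA) ?_
    rw [← P'.qs_dg]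
    exact htA 1
  rw [← hA]
  set φ : κ ⊕ Fin 2 → MvPolynomial κ (QS W) :=
    Sum.elim MvPolynomial.X (fun i => MvPolynomial.C ((![P.qs t, P'.qs t] : Fin 2 → QS W) i)) with hφ
  have hφk : ∀ a, φ a ∈ PK A := by
    rintro (a | i)
    · exact X_mem _ _
    · exact C_mem (htA i)
  have hφe : ∀ F : MvPolynomial (κ ⊕ Fin 2) (QS W), MvPolynomial.eval (fun k => P.qs (D.R k))
      (MvPolynomial.aeval φ F) = MvPolynomial.eval (Sum.elim (fun k => P.qs (D.R k)) ![P.qs t, P'.qs t]) F := by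
    intro F
    rw [eval_sbs]
    congr 2
    funext a
    rcases a with a | i
    · exact MvPolynomial.eval_X _
    · exact MvPolynomial.eval_C _
  refine ⟨{ p := MvPolynomial.aeval φ p
            e := fun k => MvPolynomial.eval ![P.qs t, P'.qs t] (G k)
            dq := fun a => (dg_sub_le _ _ le_rfl).trans (sup_le ?_ ?_)
            ek := fun k => QS.eval_mem (PK_mono hBA (Gk k)) _ le_rfl htA
            dR := hG
            pk := sbs_PK (PK_mono hBA pk) hφk
            hp := ?_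
            hT := fun l => ?_ }, ?_⟩
  · rw [P'.qs_dg]
    exact (Pj.map_mono _ (dg_le_vd D.q 1 a)).trans hq1
  · rw [P.qs_dg]
    exact (Pj.map_mono _ (dg_le_vd D.q 1 a)).trans hq0
  · rw [hφe]
    exact hp
  · rw [pderiv_sbs φ (Sum.inl l) l (by
      rintro (a | i)
      · show MvPolynomial.pderiv l (MvPolynomial.X a) = _
        rw [MvPolynomial.pderiv_X]
        by_cases h : a = l
        · subst h
          rw [Pi.single_eq_same, if_pos rfl]
        · rw [Pi.single_eq_of_ne h, if_neg (by simpa using h)]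
      · show MvPolynomial.pderiv l (MvPolynomial.C _) = _
        rw [MvPolynomial.pderiv_C, if_neg (by simp)]), hφe]
    exact hT l
  · refine (deg_aeval φ ?_ p).trans hd
    rintro (a | i)
    · exact deg_X a
    · show (MvPolynomial.C _ : MvPolynomial κ (QS W)).totalDegree ≤ 1
      rw [MvPolynomial.totalDegree_C]
      exact Nat.zero_le 1

variable {D : Dat S β κ} {s : ℝ} {ι : Type} [Fintype ι] {g : ι → QS S}

/-- WALKS FROM WORDS: `P j` arrival points, `P' j` refreshed departure points (the point `o` is literally the same),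
`Ag i` literal agreement in the data of the curves of type `i`; base walk: base lines and heights -/
theorem wth_of_word (hb : LB D.q D.R D.Pj D.wt g s)
    (hs : 0 < s) (h1 : ∀ a, D.wt a * s < 1) (hws : D.w * s ≤ 1) (hJ : LR D.q D.R D.Pj D.z D.J g (D.w * s))
    {ν : Type} [Fintype ν] {o : ν → QS S} (hinf : D.inf ≤ vd o 1)
    (hoq : ∀ a, ∃ i, o i = D.q a) (hoR : ∀ k, ∃ i, o i = D.R k) (hoz : ∃ i, o i = D.z)
    (hoc : ∀ l, ∃ i, o i = D.c l) {t : QS S} (hot : ∃ i, o i = t) (htq : dg t 1 ≤ D.qi)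
    {τ : Type} {b : τ → S.L} {Ag : τ → ∀ W : Sp, Pj W S → Pj W S → Prop}
    (hAp : ∀ i (V W : Sp) (u : Pj V W) (P P' : Pj W S), Ag i W P P' → Ag i V (u.comp P) (u.comp P'))
    {d : ℕ} (hE : ∀ i (W : Sp) (P P' : Pj W S), Ag i W P P' → ∃ (V : Sp) (u : Pj V W),
      EdgD D (D.w * s) d (u.comp P) (u.comp P') (u.map (P.map (b i ⊔ dg t 1) ⊔ dg (P'.qs t) 1)))
    {W : Sp} {K : ℕ} {sig : Fin K → τ} {P : Fin (K + 1) → Pj W S} {P' : Fin K → Pj W S}
    (href : ∀ j i, (P' j).qs (o i) = (P j.castSucc).qs (o i))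
    (hedge : ∀ j, Ag (sig j) W (P' j) (P j.succ))
    (hg : ∀ i, (P 0).qs (g i) = (P (Fin.last K)).qs (g i))
    (ind : I (Finset.univ.sup fun j => (P' j).map (b (sig j)) ⊔ dg ((P j.succ).qs t) 1) ((P 0).map (vd o 1))
      ((P 0).map D.qi) = 0)
    {th : ℝ} (real : I ((P (Fin.last K)).map (vd o 1)) ((P 0).map (vd o 1)) ((P 0).map (vd g 1)) ≤ th)
    {ℓ : ℝ} (hℓ1 : ∀ a, ℓ ≤ 1 - D.wt a * s) (hℓ2 : ∀ k, ℓ ≤ (D.w - D.wv k) * s) (hℓ3 : ℓ ≤ 1) :
    ∃ k : Wth D s ℓ th d, k.T ∧ k.RC := by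
  classical
  have hwt : ∀ a, 0 ≤ D.wt a := fun a => (D.wpos a).le
  have hu0 : ∀ a, 0 ≤ D.wt a * s := fun a => mul_nonneg (hwt a) hs.le
  obtain ⟨V, u, hu⟩ := common P' (fun j => P j.succ)
    (fun j => (P' j).map (b (sig j) ⊔ dg t 1) ⊔ dg ((P j.succ).qs t) 1) (r := D.w * s) (d := d) (D := D) (by
      intro j V u
      obtain ⟨V', u', hu'⟩ := hE (sig j) V (u.comp (P' j)) (u.comp (P j.succ)) (hAp _ _ _ _ _ _ (hedge j))
      refine ⟨V', u', hu'.mono (le_of_eq ?_)⟩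
      rw [Pj.comp_map, Pj.comp_qs, u.qs_dg, ← Pj.map_sup])
  obtain ⟨om, hom⟩ : ∃ om : W.L, om = Finset.univ.sup fun j => (P' j).map (b (sig j)) ⊔ dg ((P j.succ).qs t) 1 :=
    ⟨_, rfl⟩
  rw [← hom] at ind
  have homj : ∀ j, (P' j).map (b (sig j)) ⊔ dg ((P j.succ).qs t) 1 ≤ om := by
    intro j
    rw [hom]
    exact Finset.le_sup (f := fun j => (P' j).map (b (sig j)) ⊔ dg ((P j.succ).qs t) 1) (Finset.mem_univ j)
  obtain ⟨A, hA⟩ : ∃ A : W.L, A = om ⊔ (P 0).map D.qi := ⟨_, rfl⟩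
  have htP : ∀ j : Fin (K + 1), dg ((P j).qs t) 1 ≤ A := by
    intro j
    refine Fin.cases ?_ (fun j => ?_) j
    · rw [Pj.qs_dg, hA]
      exact (Pj.map_mono _ htq).trans le_sup_right
    · rw [hA]
      exact (le_sup_right.trans (homj j)).trans le_sup_left
  have hAj : ∀ j, (P' j).map (b (sig j) ⊔ dg t 1) ⊔ dg ((P j.succ).qs t) 1 ≤ A := by
    intro j
    have h2 : (P' j).map (dg t 1) ≤ A := by
      rw [← Pj.qs_dg]
      obtain ⟨i, hi⟩ := hot
      rw [← hi, href j i, hi]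
      exact htP j.castSucc
    rw [Pj.map_sup]
    refine sup_le (sup_le ?_ h2) (htP j.succ)
    rw [hA]
    exact (le_sup_left.trans (homj j)).trans le_sup_left
  have hstep : ∀ j : Fin K, EdgD D (D.w * s) d (u.comp (P j.castSucc)) (u.comp (P j.succ)) (u.map A) := by
    intro j
    have ho : ∀ i, (u.comp (P' j)).qs (o i) = (u.comp (P j.castSucc)).qs (o i) := by
      intro i
      rw [Pj.comp_qs, Pj.comp_qs, href j i]
    refine (EdgD.same _ ?_ ?_ ?_ ?_).comp ((hu j).mono (Pj.map_mono _ (hAj j)))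
    · intro a
      obtain ⟨i, hi⟩ := hoq a
      rw [← hi]
      exact ho i
    · intro a
      obtain ⟨i, hi⟩ := hoR a
      rw [← hi]
      exact ho i
    · obtain ⟨i, hi⟩ := hoz
      rw [← hi]
      exact ho i
    · intro a
      obtain ⟨i, hi⟩ := hoc a
      rw [← hi]
      exact ho i
  have hch := chainD (fun j => u.comp (P j)) hstep
  have hc : ∀ i, (u.comp (P 0)).qs (g i) = (u.comp (P (Fin.last K))).qs (g i) := by
    intro i
    rw [Pj.comp_qs, Pj.comp_qs, hg i]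
  rw [hA, Pj.map_sup, ← Pj.comp_map] at hch
  have hind : I (u.map om) ((u.comp (P 0)).map D.inf) ((u.comp (P 0)).map D.qi) = 0 := by
    rw [Pj.comp_map, Pj.comp_map, Pj.I_map]
    exact I_zero_mono ind le_sup_left ((Pj.map_mono _ hinf).trans le_sup_left)
  have hreal : I ((u.comp (P (Fin.last K))).map (vd o 1)) ((u.comp (P 0)).map (vd o 1))
      ((u.comp (P 0)).map (vd g 1)) ≤ th := by
    rw [Pj.comp_map, Pj.comp_map, Pj.comp_map, Pj.I_map]
    exact real
  choose ξ₀ hξ₀ _ using fun a => exists_div' (hu0 a) (h1 a).le (hb.mem V _ _ hc a)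
  exact wth_of_edg hb hs h1 hws hJ hc (u.map om) hch hind hℓ1 hℓ2 hℓ3 hξ₀ (real_end hb hs hc hinf hreal hℓ1 hξ₀ h1)

end word

end

end Pool.Agent.Helper79.WLK
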