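import Pool.Agent.Helper79.WLK.Dia
import Pool.Agent.Helper92.WK.Real

/-! WALKS (row W1): long walks of helper92 and the composition of edges give the walks of THEOREM A. -/

set_option autoImplicit false
set_option linter.unusedSectionVars false

namespace Pool.Agent.Helper79.WLK

open Finset Filter Topology Pool.Agent.Helper69.RK Pool.Agent.Helper31.EC Pool.Agent.Helper31.EC.Sp
open Pool.Agent.Helper31.EC.QS Pool.Agent.Helper57.TA
open Pool.Agent.Helper92.WK (WI Wd Lit)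

noncomputable section

variable {S : Sp} {β κ : Type} [Fintype β] [Fintype κ] {D : Dat S β κ} {s : ℝ}
variable {τ γ ο : Type} [Fintype γ] [Fintype ο] {φ : τ → Type} [∀ i, Fintype (φ i)]

/-- WALKS of scale `s` with (T) and (RC), from: types `X` (helper92), literal boxes, transports along the edges -/
theorem walk_of_WI [Finite τ] [Nonempty τ] (X : WI S τ β γ ο φ) (hq : X.q = D.q)
    (hb : LB D.q D.R D.Pj D.wt X.g s) (hs : 0 < s) (h1 : ∀ a, D.wt a * s < 1) (hws : D.w * s ≤ 1)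
    (hJ : LR D.q D.R D.Pj D.z D.J X.g (D.w * s)) (hinf : D.inf ≤ vd X.o 1)
    (hoR : ∀ k, ∃ i, X.o i = D.R k) (hoz : ∃ i, X.o i = D.z) (hoc : ∀ l, ∃ i, X.o i = D.c l)
    (hot : ∃ i, X.o i = X.t) {d : ℕ}
    (hE : ∀ i (W : Sp) (P P' : Pj W S), Lit (X.bV i) P P' → (∀ a, P.qs (X.F i a) = P'.qs (X.F i a)) →
      (∀ a, P.qs (X.g a) = P'.qs (X.g a)) → ∃ (V : Sp) (u : Pj V W),
        EdgD D (D.w * s) d (u.comp P) (u.comp P') (u.map (P.map (Sp.io (X.bV i) ⊔ dg X.t 1) ⊔ dg (P'.qs X.t) 1))) :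
    ∃ k : Walk D s, k.T ∧ k.RC := by
  obtain ⟨ℓ, hℓ0, hℓ1, hℓ2, hℓ3⟩ := exists_ell2 hs h1
  apply walk_diag (d := d) hℓ0 hℓ1
  intro th hth
  obtain ⟨w, hw, hr⟩ := Helper92.WK.exists_walk X th hth
  refine wth_of_word hb hs h1 hws hJ hinf ?_ hoR hoz hoc hot ?_
    (b := fun i => Sp.io (X.bV i))
    (Ag := fun i W P P' => Lit (X.bV i) P P' ∧ (∀ a, P.qs (X.F i a) = P'.qs (X.F i a)) ∧
      ∀ a, P.qs (X.g a) = P'.qs (X.g a)) ?_ ?_ (sig := w.σ) (P := w.P) (P' := w.P') w.ho ?_ ?_ ?_ hr hℓ2 hℓ3 hℓ1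
  · intro a
    obtain ⟨c, hc⟩ := X.qo a
    refine ⟨c, ?_⟩
    rw [← hc, hq]
  · have h2 := X.tq
    rw [hq] at h2
    exact h2
  · rintro i V W u P P' ⟨h2, h3, h4⟩
    refine ⟨?_, ?_, ?_⟩
    · intro k ω hω
      exact h2 k (u.π k ω) (u.supp k ω hω)
    · intro a
      rw [Pj.comp_qs, Pj.comp_qs, h3 a]
    · intro a
      rw [Pj.comp_qs, Pj.comp_qs, h4 a]
  · rintro i W P P' ⟨h2, h3, h4⟩
    exact hE i W P P' h2 h3 h4
  · intro j
    exact ⟨w.hV j, w.hF j, w.hg j⟩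
  · intro i
    exact (w.g_common (Fin.last w.K) i).symm
  · have h2 := hw.ind
    rw [hq] at h2
    exact I_zero_mono h2 le_sup_left ((Pj.map_mono _ le_sup_left).trans le_sup_left)

end

end Pool.Agent.Helper79.WLK
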