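import Pool.Agent.Helper79.WLK.One

/-! Chains of edges: composition, walks from chains of edges. -/

set_option autoImplicit false
set_option linter.unusedSectionVars false

namespace Pool.Agent.Helper79.WLK

open Finset Filter Topology Pool.Agent.Helper69.RK Pool.Agent.Helper31.EC Pool.Agent.Helper31.EC.Sp
open Pool.Agent.Helper31.EC.QS Pool.Agent.Helper57.TA Pool.Agent.Helper21.DO Pool.Agent.Helper38.NS
open Pool.Agent.Helper79.JET

noncomputable section

variable {S : Sp} {β κ : Type} [Fintype β] [Fintype κ]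

/-- ONE EDGE (or a chain of edges): the lower vertical coordinates move by known functions (flatness), the next one by a
known polynomial of the lower ones, its first vertical jets by the derivatives of this polynomial -/
structure Edg (D : Dat S β κ) (r : ℝ) {W : Sp} (P P' : Pj W S) (A : W.L) where
  p : MvPolynomial κ (QS W)
  e : κ → QS W
  dq : ∀ a, dg (P'.qs (D.q a) - P.qs (D.q a)) 1 ≤ A
  ek : ∀ k, dg (e k) 1 ≤ A
  dR : ∀ k, P'.qs (D.R k) - P.qs (D.R k) - e k ∈ Id W r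
  pk : p ∈ PK A
  hp : P'.qs D.z - P.qs D.z - MvPolynomial.eval (fun k => P.qs (D.R k)) p ∈ Id W r
  hT : ∀ l, P'.qs (D.c l) - P.qs (D.c l) -
    MvPolynomial.eval (fun k => P.qs (D.R k)) (MvPolynomial.pderiv l p) ∈ Id W r

theorem sh_PK {A : S.L} {x : κ → QS S} (hx : ∀ a, dg (x a) 1 ≤ A) {J : MvPolynomial κ (QS S)} (hJ : J ∈ PK A) :
    sh x J ∈ PK A :=
  sbs_PK hJ fun a => (PK A).add_mem (C_mem (hx a)) (X_mem A a)

theorem sh_pderiv {A : Type*} [CommRing A] {κ : Type*} (x : κ → A) (J : MvPolynomial κ A) (a : κ) :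
    MvPolynomial.pderiv a (sh x J) = sh x (MvPolynomial.pderiv a J) := by
  classical
  unfold sh
  apply pderiv_sbs
  intro b
  rw [map_add, MvPolynomial.pderiv_C, zero_add, MvPolynomial.pderiv_X]
  by_cases h : b = a
  · subst h
    rw [Pi.single_eq_same, if_pos rfl]
  · rw [Pi.single_eq_of_ne h, if_neg h]

namespace Edg

variable {D : Dat S β κ} {r : ℝ} {W : Sp}

/-- the trivial edge -/
def refl (P : Pj W S) (A : W.L) : Edg D r P P A where
  p := 0
  e := fun _ => 0
  dq := fun a => by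
    rw [sub_self]
    exact (Kn W 1 le_rfl A).zero_mem
  ek := fun _ => (Kn W 1 le_rfl A).zero_mem
  dR := fun k => by
    rw [sub_self, sub_zero]
    exact Ideal.zero_mem _
  pk := (PK A).zero_mem
  hp := by
    rw [map_zero, sub_self, sub_zero]
    exact Ideal.zero_mem _
  hT := fun l => by
    rw [map_zero, map_zero, sub_self, sub_zero]
    exact Ideal.zero_mem _

/-- more information -/
def mono {P P' : Pj W S} {A B : W.L} (E : Edg D r P P' A) (h : A ≤ B) : Edg D r P P' B where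
  p := E.p
  e := E.e
  dq := fun a => (E.dq a).trans h
  ek := fun a => (E.ek a).trans h
  dR := E.dR
  pk := PK_mono h E.pk
  hp := E.hp
  hT := E.hT

/-- less precision -/
def anti {P P' : Pj W S} {A : W.L} (E : Edg D r P P' A) {r' : ℝ} (h : r' ≤ r) : Edg D r' P P' A where
  p := E.p
  e := E.e
  dq := E.dq
  ek := E.ek
  dR := fun k => Id_mono h (E.dR k)
  pk := E.pk
  hp := Id_mono h E.hp
  hT := fun l => Id_mono h (E.hT l)

theorem move {P P' : Pj W S} {A : W.L} (E : Edg D r P P' A) (F : MvPolynomial κ (QS W)) :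
    MvPolynomial.eval (fun k => P'.qs (D.R k)) F - MvPolynomial.eval (fun k => P.qs (D.R k)) (sh E.e F) ∈ Id W r := by
  rw [sh_eval]
  apply eval_sub_mem
  intro k
  refine (congrArg (· ∈ Id W r) ?_).mp (E.dR k)
  ring

/-- composition -/
def comp {P P' P'' : Pj W S} {A : W.L} (E : Edg D r P P' A) (E' : Edg D r P' P'' A) : Edg D r P P'' A where
  p := E.p + sh E.e E'.p
  e := fun k => E.e k + E'.e k
  dq := fun a => by
    have h1 : P''.qs (D.q a) - P.qs (D.q a) =
        (P''.qs (D.q a) - P'.qs (D.q a)) + (P'.qs (D.q a) - P.qs (D.q a)) := by ring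
    rw [h1]
    exact (Kn W 1 le_rfl A).add_mem (E'.dq a) (E.dq a)
  ek := fun k => (Kn W 1 le_rfl A).add_mem (E.ek k) (E'.ek k)
  dR := fun k => by
    refine (congrArg (· ∈ Id W r) ?_).mp (Ideal.add_mem _ (E'.dR k) (E.dR k))
    ring
  pk := (PK A).add_mem E.pk (sh_PK E.ek E'.pk)
  hp := by
    rw [map_add]
    refine (congrArg (· ∈ Id W r) ?_).mp (Ideal.add_mem _ (Ideal.add_mem _ E'.hp E.hp) (E.move E'.p))
    ring
  hT := fun l => by
    rw [map_add, map_add, sh_pderiv]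
    refine (congrArg (· ∈ Id W r) ?_).mp
      (Ideal.add_mem _ (Ideal.add_mem _ (E'.hT l) (E.hT l)) (E.move (MvPolynomial.pderiv l E'.p)))
    ring

/-- pullback -/
def pull {P P' : Pj W S} {A : W.L} (E : Edg D r P P' A) {V : Sp} (u : Pj V W) :
    Edg D r (u.comp P) (u.comp P') (u.map A) where
  p := MvPolynomial.map u.qs E.p
  e := fun k => u.qs (E.e k)
  dq := fun a => by
    rw [Pj.comp_qs, Pj.comp_qs, ← map_sub, u.qs_dg]
    exact Pj.map_mono _ (E.dq a)
  ek := fun k => by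
    rw [u.qs_dg]
    exact Pj.map_mono _ (E.ek k)
  dR := fun k => by
    rw [Pj.comp_qs, Pj.comp_qs, ← map_sub, ← map_sub]
    exact qs_Id u (E.dR k)
  pk := map_PK u E.pk
  hp := by
    have h1 := qs_Id u E.hp
    rw [map_sub, map_sub, qs_eval] at h1
    simp only [Pj.comp_qs]
    exact h1
  hT := fun l => by
    have h1 := qs_Id u (E.hT l)
    rw [map_sub, map_sub, qs_eval, ← MvPolynomial.pderiv_map] at h1
    simp only [Pj.comp_qs]
    exact h1

end Edg

/-- chains of edges -/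
def chain {D : Dat S β κ} {r : ℝ} {W : Sp} {A : W.L} (P : ℕ → Pj W S) (E : ∀ j, Edg D r (P j) (P (j + 1)) A) :
    ∀ K : ℕ, Edg D r (P 0) (P K) A
  | 0 => Edg.refl (P 0) A
  | K + 1 => (chain P E K).comp (E K)

/-- WALKS FROM CHAINS: two points with the same literal label, joined by a chain of edges over a base walk `om` which is
independent of the point over the base point, at a displacement whose first digits are free -/
theorem walk_of_edg {D : Dat S β κ} {s : ℝ} {ι : Type} [Fintype ι] {g : ι → QS S} (hb : LB D.q D.R D.Pj D.wt g s)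
    (hs : 0 < s) (h1 : ∀ a, D.wt a * s < 1) (hws : D.w * s ≤ 1) (hJ : LR D.q D.R D.Pj D.z D.J g (D.w * s))
    {W : Sp} {P0 P1 : Pj W S} (hc : ∀ i, P0.qs (g i) = P1.qs (g i)) (om : W.L)
    (E : Edg D (D.w * s) P0 P1 (om ⊔ P0.map D.qi)) (ind : I om (P0.map D.inf) (P0.map D.qi) = 0)
    {ξ₀ : β ⊕ κ → QS W} {ℓ : ℝ} (hℓ : 0 < ℓ) (hℓ1 : ∀ a, ℓ ≤ 1 - D.wt a * s) (hℓ2 : ℓ ≤ 1)
    (hξ₀ : ∀ a, bc P0 P1 D.q D.R D.Pj a = sc W (D.wt a * s) * ξ₀ a) (hR : Rt ℓ ξ₀ (P0.map D.inf)) :
    ∃ k : Walk D s, k.T ∧ k.RC := by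
  classical
  have hwt : ∀ a, 0 ≤ D.wt a := fun a => (D.wpos a).le
  have hu0 : ∀ a, 0 ≤ D.wt a * s := fun a => mul_nonneg (hwt a) hs.le
  obtain ⟨A, hA⟩ : ∃ A : W.L, A = om ⊔ P0.map D.qi := ⟨_, rfl⟩
  -- known box coordinates
  set x : β → QS W := fun a => P1.qs (D.q a) - P0.qs (D.q a) with hx
  set y : β ⊕ κ → QS W := Sum.elim x (fun k => E.e k - MvPolynomial.eval x (MvPolynomial.map P0.qs (D.Pj k))) with hy
  have hyb : ∀ k, y (Sum.inr k) - bc P0 P1 D.q D.R D.Pj (Sum.inr k) ∈ Id W (D.w * s) := by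
    intro k
    refine (congrArg (· ∈ Id W (D.w * s)) ?_).mp ((Ideal.neg_mem_iff _).mpr (E.dR k))
    show _ = (E.e k - _) - (P1.qs (D.R k) - P0.qs (D.R k) - _)
    ring
  have hyb0 : ∀ a, y (Sum.inl a) = bc P0 P1 D.q D.R D.Pj (Sum.inl a) := fun a => rfl
  have hyk : ∀ a, dg (y a) 1 ≤ om ⊔ P0.map D.qi := by
    rintro (a | k)
    · exact E.dq a
    · exact (dg_sub_le _ _ le_rfl).trans (sup_le (E.ek k)
        (QS.eval_mem (PK_mono le_sup_right (map_PK P0 (D.Pjk k))) _ le_rfl E.dq))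
  have hm := hb.mem W P0 P1 hc
  have hym : ∀ a, y a ∈ Id W (D.wt a * s) := by
    rintro (a | k)
    · exact hm (Sum.inl a)
    · have h2 := Id_mono (mul_le_mul_of_nonneg_right (D.wlt k).le hs.le) (hyb k)
      have h3 := Ideal.add_mem _ h2 (hm (Sum.inr k))
      rwa [sub_add_cancel] at h3
  choose ξ hξ hξk using fun a => exists_div' (hu0 a) (h1 a).le (hym a)
  -- the free digits
  have hclose : ∀ a, y a - bc P0 P1 D.q D.R D.Pj a ∈ Id W (D.w * s) := by
    rintro (a | k)
    · rw [hyb0, sub_self]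
      exact Ideal.zero_mem _
    · exact hyb k
  obtain ⟨δ, hδ, hδw⟩ : ∃ δ : ℝ, 0 < δ ∧ ∀ k, δ ≤ (D.w - D.wv k) * s := by
    by_cases hne : Nonempty κ
    · obtain ⟨k, -, hk⟩ := Finset.exists_min_image Finset.univ (fun k => (D.w - D.wv k) * s)
        ⟨Classical.choice hne, Finset.mem_univ _⟩
      exact ⟨(D.w - D.wv k) * s, mul_pos (sub_pos.mpr (D.wlt k)) hs, fun b => hk b (Finset.mem_univ b)⟩
    · exact ⟨1, one_pos, fun a => absurd ⟨a⟩ hne⟩
  set ℓ' := min ℓ δ with hℓ'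
  have hℓ'0 : 0 < ℓ' := lt_min hℓ hδ
  have hℓ'1 : ℓ' ≤ 1 := (min_le_left _ _).trans hℓ2
  have hdg : ∀ a, dg (ξ a) ℓ' = dg (ξ₀ a) ℓ' := by
    rintro (a | k)
    · have h2 : sc W (D.wt (Sum.inl a) * s) * (ξ (Sum.inl a) - ξ₀ (Sum.inl a)) ∈ Id W 1 := by
        rw [mul_sub, ← hξ, ← hξ₀, hyb0, sub_self]
        exact Ideal.zero_mem _
      have h3 := mem_of_sc_mul (hu0 _) le_rfl h2
      exact dg_eq_of_sub_mem h3 ((min_le_left _ _).trans (hℓ1 _)) hℓ'1
    · have h2 : sc W (D.wt (Sum.inr k) * s) * (ξ (Sum.inr k) - ξ₀ (Sum.inr k)) ∈ Id W (D.w * s) := by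
        rw [mul_sub, ← hξ, ← hξ₀]
        exact hyb k
      have h3 := mem_of_sc_mul (hu0 _) hws h2
      refine dg_eq_of_sub_mem h3 ((min_le_right _ _).trans ((hδw k).trans (le_of_eq ?_))) hℓ'1
      show (D.w - D.wt (Sum.inr k)) * s = _
      ring
  have hreal : Rt ℓ' ξ (P0.map D.inf) := by
    have h2 := hR.mono hℓ'0.le (min_le_left ℓ δ)
    unfold Rt at h2 ⊢
    have h3 : vd ξ ℓ' = vd ξ₀ ℓ' := by
      unfold vd
      congr 1
      funext a
      exact hdg a
    rw [h3]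
    exact h2
  -- the walk
  have hraw : (fun a => sc W (D.wt a * s) * ξ a) = y := by
    funext a
    exact (hξ a).symm
  have hraw1 : (fun a => sc W (D.wt (Sum.inl a) * s) * ξ (Sum.inl a)) = x := by
    funext a
    exact (hξ (Sum.inl a)).symm
  let k : Walk D s :=
    { W := W
      P0 := P0
      P1 := P1
      ξ := ξ
      dq := by
        intro a
        rw [← hξ (Sum.inl a)]
        show _ = _ + (P1.qs (D.q a) - P0.qs (D.q a))
        ring
      dR := by
        intro k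
        rw [hraw1, ← hξ (Sum.inr k)]
        refine (congrArg (· ∈ Id W (D.w * s)) ?_).mp (E.dR k)
        show _ = _ - (_ + _ + (E.e k - _))
        ring
      hW := by
        rw [hraw]
        have h2 := hJ W P0 P1 hc
        have h3 := eval_sub_mem (Id W (D.w * s)) (MvPolynomial.map P0.qs D.J) _ _ hclose
        refine (congrArg (· ∈ Id W (D.w * s)) ?_).mp (Ideal.sub_mem _ h2 h3)
        ring
      om := om
      p := E.p
      ind := ind
      kn := fun a => (hξk a).trans (hyk a)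
      pk := E.pk
      hp := E.hp
      ℓ := ℓ'
      ℓ0 := hℓ'0
      ℓ1 := hℓ'1
      real := hreal }
  exact ⟨k, E.hT, pair_rc hb hs.le h1 hws hJ k.toPair hc⟩

end

end Pool.Agent.Helper79.WLK
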