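import Pool.Agent.Helper79.WLK.Wd
import Pool.Agent.Helper31.EC.Ext

/-! The diagonal of a sequence of extensions, for finitely many tame functions, finitely many relations, countably many
entropies. -/

set_option autoImplicit false
set_option linter.unusedSectionVars false

namespace Pool.Agent.Helper79.WLK

open Finset Filter Topology Pool.Agent.Helper69.RK Pool.Agent.Helper31.EC Pool.Agent.Helper31.EC.Sp
open Pool.Agent.Helper31.EC.QS Pool.Agent.Helper57.TA Pool.Agent.Helper21.DO Pool.Agent.Helper38.NS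
open Pool.Agent.Helper79.JET

noncomputable section

section diag

theorem small_sub {S : Sp} (j : ℕ) {K : ℕ → ℝ} (hK : S.Sub K) :
    ∀ᶠ k in UF, 0 ≤ K k ∧ Real.logb 2 (K k + 2) / (S.F k).n ≤ 1 / ((j : ℝ) + 1) := by
  have h5 : (0 : ℝ) < 1 / ((j : ℝ) + 1) := by positivity
  filter_upwards [hK.1, hK.2.eventually (gt_mem_nhds h5)] with k a b using ⟨a, b.le⟩

variable {W : ℕ → Sp} {J : ℕ → ℕ}

theorem sub_diag (hJ : Tendsto J UF atTop) (hn : Tendsto (fun k => ((W (J k)).F k).n) UF atTop) {K : ℕ → ℕ → ℝ}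
    (h : ∀ᶠ k in UF, 0 ≤ K (J k) k ∧ Real.logb 2 (K (J k) k + 2) / ((W (J k)).F k).n ≤ 1 / ((J k : ℝ) + 1)) :
    (dsp W J hn).Sub (fun k => K (J k) k) := by
  refine ⟨h.mono fun k a => a.1, ?_⟩
  have h2 : Tendsto (fun k => 1 / ((J k : ℝ) + 1)) UF (𝓝 0) := tendsto_one_div_add_atTop_nhds_zero_nat.comp hJ
  refine tendsto_of_tendsto_of_tendsto_of_le_of_le' tendsto_const_nhds h2 ?_ ?_
  · filter_upwards [h] with k hk
    exact div_nonneg (Real.logb_nonneg (by norm_num) (by linarith [hk.1])) ((W (J k)).F k).pos.le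
  · filter_upwards [h] with k hk using hk.2

theorem typ_diag (hJ : Tendsto J UF atTop) (hn : Tendsto (fun k => ((W (J k)).F k).n) UF atTop)
    {E : ∀ j k, ((W j).F k).Ω → Prop}
    (h : ∀ᶠ k in UF, mass (res ((W (J k)).F k).μ (fun ω => ¬ E (J k) k ω)) ≤ 1 / ((J k : ℝ) + 1)) :
    Typ (S := dsp W J hn) (fun k ω => E (J k) k ω) := by
  have h2 : Tendsto (fun k => 1 / ((J k : ℝ) + 1)) UF (𝓝 0) := tendsto_one_div_add_atTop_nhds_zero_nat.comp hJ
  refine tendsto_of_tendsto_of_tendsto_of_le_of_le' tendsto_const_nhds h2 ?_ ?_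
  · exact Eventually.of_forall fun k => mass_res_nonneg k _
  · filter_upwards [h] with k hk using hk

/-- DIAGONAL: tame functions, relations, entropies -/
theorem exists_diag (W : ℕ → Sp) (hn : ∀ j k, ((W j).F k).n = ((W 0).F k).n) {ι ρ : Type} [Finite ι] [Finite ρ]
    (f : ι → ∀ j, TR (W j)) (g : ρ → ∀ j, TR (W j)) (r : ρ → ℝ) (hg : ∀ i j, TR.Ag (r i) (g i j) 0)
    (A B : ℕ → ∀ j, (W j).Inf) :
    ∃ (J : ℕ → ℕ) (_ : Tendsto J UF atTop) (hn' : Tendsto (fun k => ((W (J k)).F k).n) UF atTop),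
      (∀ i, ∃ F : TR (dsp W J hn'), ∀ k (ω : ((W (J k)).F k).Ω), F.1 k ω = (f i (J k)).1 k ω) ∧
      (∀ i, ∀ F : TR (dsp W J hn'), (∀ k (ω : ((W (J k)).F k).Ω), F.1 k ω = (g i (J k)).1 k ω) →
        TR.Ag (r i) F 0) ∧
      ∀ i, Tendsto (fun k => (W (J k)).rt (A i (J k)).1 (B i (J k)).1 k -
        ul ((W (J k)).rt (A i (J k)).1 (B i (J k)).1)) UF (𝓝 0) := by
  classical
  choose K hK hb using fun i j => (f i j).2
  choose E L hE hL hh using hg
  set G : ℕ → ℕ → ℕ → Prop := fun _ j k =>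
    (∀ a : ι, (0 ≤ K a j k ∧ Real.logb 2 (K a j k + 2) / ((W j).F k).n ≤ 1 / ((j : ℝ) + 1)) ∧
      ∀ ω, ((W j).F k).μ ω ≠ 0 → |(f a j).1 k ω| ≤ K a j k) ∧
    ∀ b : ρ, (0 ≤ L b j k ∧ Real.logb 2 (L b j k + 2) / ((W j).F k).n ≤ 1 / ((j : ℝ) + 1)) ∧
      mass (res ((W j).F k).μ (fun ω => ¬ E b j k ω)) ≤ 1 / ((j : ℝ) + 1) ∧
      ∀ ω, ((W j).F k).μ ω ≠ 0 → E b j k ω →
        |TR.ev (g b j) k ω - TR.ev (0 : TR (W j)) k ω| ≤ L b j k * (W j).dl (r b) k with hG
  have hGe : ∀ i j, ∀ᶠ k in UF, G i j k := by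
    intro i j
    have h5 : (0 : ℝ) < 1 / ((j : ℝ) + 1) := by positivity
    have h1 : ∀ᶠ k in UF, ∀ a : ι, (0 ≤ K a j k ∧
        Real.logb 2 (K a j k + 2) / ((W j).F k).n ≤ 1 / ((j : ℝ) + 1)) ∧
        ∀ ω, ((W j).F k).μ ω ≠ 0 → |(f a j).1 k ω| ≤ K a j k := by
      rw [Filter.eventually_all]
      intro a
      filter_upwards [small_sub j (hK a j), hb a j] with k c d using ⟨c, d⟩
    have h2 : ∀ᶠ k in UF, ∀ b : ρ, (0 ≤ L b j k ∧
        Real.logb 2 (L b j k + 2) / ((W j).F k).n ≤ 1 / ((j : ℝ) + 1)) ∧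
        mass (res ((W j).F k).μ (fun ω => ¬ E b j k ω)) ≤ 1 / ((j : ℝ) + 1) ∧
        ∀ ω, ((W j).F k).μ ω ≠ 0 → E b j k ω →
          |TR.ev (g b j) k ω - TR.ev (0 : TR (W j)) k ω| ≤ L b j k * (W j).dl (r b) k := by
      rw [Filter.eventually_all]
      intro b
      filter_upwards [small_sub j (hL b j), (hE b j).eventually (gt_mem_nhds h5), hh b j] with k c d e
        using ⟨c, d.le, e⟩
    filter_upwards [h1, h2] with k c d using ⟨c, d⟩
  obtain ⟨J, hJ, hJ1, hJ2⟩ := diag_in_place (fun i j => (W j).rt (A i j).1 (B i j).1) G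
    (fun i j => UB_rt _ _) hGe
  have hn' : Tendsto (fun k => ((W (J k)).F k).n) UF atTop := by
    have h1 : (fun k => ((W (J k)).F k).n) = fun k => ((W 0).F k).n := by
      funext k
      exact hn _ _
    rw [h1]
    exact (W 0).lim
  refine ⟨J, hJ, hn', ?_, ?_, hJ1⟩
  · intro i
    refine ⟨⟨fun k ω => (f i (J k)).1 k ω, fun k => K i (J k) k, sub_diag hJ hn' ?_, ?_⟩, fun k ω => rfl⟩
    · filter_upwards [hJ2 0] with k hk using (hk.1 i).1
    · filter_upwards [hJ2 0] with k hk using (hk.1 i).2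
  · intro i F hF
    refine ⟨fun k ω => E i (J k) k ω, fun k => L i (J k) k, typ_diag hJ hn' ?_, sub_diag hJ hn' ?_, ?_⟩
    · filter_upwards [hJ2 0] with k hk using (hk.2 i).2.1
    · filter_upwards [hJ2 0] with k hk using (hk.2 i).1
    · filter_upwards [hJ2 0] with k hk ω h1 h2
      have h3 := (hk.2 i).2.2 ω h1 h2
      have h4 : TR.ev F k ω = TR.ev (g i (J k)) k ω := hF k ω
      rw [h4]
      exact h3

end diag

section dig

variable {S : Sp} {ι : Type} [Fintype ι]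

/-- digits of a family of tame functions as an information -/
def fi (F : ι → TR S) (r : ℝ) : S.Inf :=
  (VV.bdd (TR.vec fun i : Fin (Fintype.card ι) => F ((Fintype.equivFin ι).symm i)) r).toInf

theorem cl_fi (F : ι → TR S) {r : ℝ} (hr : r ≤ 1) : cl (fi F r) = vd (fun a => QS.mk (F a)) r := by
  have h1 : cl (fi F r) = (TR.vec fun i : Fin (Fintype.card ι) => F ((Fintype.equivFin ι).symm i)).dg r :=
    (io_eq _).symm
  rw [h1, TR.vec_dg_eq]
  apply le_antisymm
  · apply Finset.sup_le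
    intro i _
    have h2 := dg_le_vd (fun a => QS.mk (F a)) r ((Fintype.equivFin ι).symm i)
    rw [QS.dg_mk _ hr] at h2
    exact h2
  · rw [vd_le]
    intro a
    rw [QS.dg_mk _ hr]
    have h2 := Finset.le_sup (f := fun i : Fin (Fintype.card ι) => TR.dg (F ((Fintype.equivFin ι).symm i)) r)
      (Finset.mem_univ (Fintype.equivFin ι a))
    beta_reduce at h2
    rwa [Equiv.symm_apply_apply] at h2

theorem fi_diag {W : ℕ → Sp} {J : ℕ → ℕ} {hn : Tendsto (fun k => ((W (J k)).F k).n) UF atTop}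
    {F : ι → TR (dsp W J hn)} {f : ι → ∀ j, TR (W j)}
    (h : ∀ i k (ω : ((W (J k)).F k).Ω), (F i).1 k ω = (f i (J k)).1 k ω) (r : ℝ) (k : ℕ) :
    (fi F r).1 k = (fi (fun i => f i (J k)) r).1 k := by
  show Setoid.ker (fun ω => cell _ (fun i => TR.ev (F ((Fintype.equivFin ι).symm i)) k ω)) =
    Setoid.ker (fun ω => cell _ (fun i => TR.ev (f ((Fintype.equivFin ι).symm i) (J k)) k ω))
  congr 1
  funext ω
  congr 1
  funext i
  exact h _ k ω

end dig

section poly

variable {κ : Type} [Fintype κ]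

/-- the monomials with exponents at most `d` -/
def mo {d : ℕ} (m : κ → Fin (d + 1)) : κ →₀ ℕ := Finsupp.equivFunOnFinite.symm fun k => (m k : ℕ)

theorem mo_injective (d : ℕ) : Function.Injective (mo (κ := κ) (d := d)) := by
  intro m m' h
  funext k
  have h1 : (m k : ℕ) = m' k := DFunLike.congr_fun h k
  exact Fin.ext h1

/-- the polynomial with given coefficients -/
def poly {A : Type} [CommRing A] {d : ℕ} (c : (κ → Fin (d + 1)) → A) : MvPolynomial κ A := by
  classical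
  exact ∑ m : κ → Fin (d + 1), MvPolynomial.monomial (mo m) (c m)

theorem map_poly {A B : Type} [CommRing A] [CommRing B] (φ : A →+* B) {d : ℕ} (c : (κ → Fin (d + 1)) → A) :
    MvPolynomial.map φ (poly c) = poly fun m => φ (c m) := by
  classical
  unfold poly
  rw [map_sum]
  apply Finset.sum_congr rfl
  intro m _
  rw [MvPolynomial.map_monomial]

theorem coeff_poly {A : Type} [CommRing A] {d : ℕ} (c : (κ → Fin (d + 1)) → A) (m : κ → Fin (d + 1)) :
    (poly c).coeff (mo m) = c m := by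
  classical
  unfold poly
  rw [MvPolynomial.coeff_sum]
  simp only [MvPolynomial.coeff_monomial]
  rw [Finset.sum_eq_single m]
  · rw [if_pos rfl]
  · intro m' _ h
    rw [if_neg fun h' => h (mo_injective d h')]
  · intro h
    exact absurd (Finset.mem_univ m) h

theorem coeff_poly' {A : Type} [CommRing A] {d : ℕ} (c : (κ → Fin (d + 1)) → A) (m : κ →₀ ℕ)
    (h : (poly c).coeff m ≠ 0) (k : κ) : m k ≤ d := by
  classical
  by_contra hc
  apply h
  unfold poly
  rw [MvPolynomial.coeff_sum]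
  simp only [MvPolynomial.coeff_monomial]
  apply Finset.sum_eq_zero
  intro m' _
  rw [if_neg]
  intro h'
  apply hc
  rw [← h']
  exact Nat.lt_succ_iff.mp (m' k).isLt

theorem poly_coeff {A : Type} [CommRing A] {d : ℕ} (p : MvPolynomial κ A)
    (hp : ∀ m, p.coeff m ≠ 0 → ∀ k, m k ≤ d) : poly (d := d) (fun m => p.coeff (mo m)) = p := by
  classical
  ext m
  by_cases hm : ∀ k, m k ≤ d
  · have h3 : m = mo (d := d) fun k => ⟨m k, Nat.lt_succ_of_le (hm k)⟩ := by
      ext k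
      rfl
    rw [h3, coeff_poly]
  · have h1 : p.coeff m = 0 := by
      by_contra hc
      exact hm (hp m hc)
    rw [h1]
    by_contra hc
    exact hm (coeff_poly' _ m hc)

end poly

/-- the values of a walk, in a ring -/
structure Wv (β κ A : Type) [CommRing A] where
  q0 : β → A
  q1 : β → A
  R0 : κ → A
  R1 : κ → A
  z0 : A
  z1 : A
  c0 : κ → A
  c1 : κ → A
  Pj : κ → MvPolynomial β A
  J : MvPolynomial (β ⊕ κ) A
  σ : β ⊕ κ → A
  ξ : β ⊕ κ → A
  p : MvPolynomial κ A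

namespace Wv

variable {β κ A B : Type} [CommRing A] [CommRing B]

/-- change of rings -/
def map (v : Wv β κ A) (φ : A →+* B) : Wv β κ B where
  q0 := fun a => φ (v.q0 a)
  q1 := fun a => φ (v.q1 a)
  R0 := fun a => φ (v.R0 a)
  R1 := fun a => φ (v.R1 a)
  z0 := φ v.z0
  z1 := φ v.z1
  c0 := fun a => φ (v.c0 a)
  c1 := fun a => φ (v.c1 a)
  Pj := fun k => MvPolynomial.map φ (v.Pj k)
  J := MvPolynomial.map φ v.J
  σ := fun a => φ (v.σ a)
  ξ := fun a => φ (v.ξ a)
  p := MvPolynomial.map φ v.p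

/-- indices of the relations -/
abbrev Ri (β κ : Type) : Type := β ⊕ (κ ⊕ (Unit ⊕ (Unit ⊕ (κ ⊕ κ))))

/-- the relations -/
def rel (v : Wv β κ A) : Ri β κ → A :=
  Sum.elim (fun a => v.q1 a - (v.q0 a + v.σ (Sum.inl a) * v.ξ (Sum.inl a)))
    (Sum.elim (fun k => v.R1 k - (v.R0 k +
        MvPolynomial.eval (fun a => v.σ (Sum.inl a) * v.ξ (Sum.inl a)) (v.Pj k) +
          v.σ (Sum.inr k) * v.ξ (Sum.inr k)))
      (Sum.elim (fun _ => v.z1 - v.z0 - MvPolynomial.eval (fun a => v.σ a * v.ξ a) v.J)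
        (Sum.elim (fun _ => v.z1 - v.z0 - MvPolynomial.eval v.R0 v.p)
          (Sum.elim (fun l => v.c1 l - v.c0 l - MvPolynomial.eval v.R0 (MvPolynomial.pderiv l v.p))
            (fun l => v.c1 l - MvPolynomial.eval (fun a => v.σ a * v.ξ a)
              (MvPolynomial.pderiv (Sum.inr l) v.J))))))

theorem map_eval' {σ' : Type} (φ : A →+* B) (x : σ' → A) (F : MvPolynomial σ' A) :
    φ (MvPolynomial.eval x F) = MvPolynomial.eval (fun a => φ (x a)) (MvPolynomial.map φ F) := by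
  rw [← MvPolynomial.eval₂_id, MvPolynomial.hom_eval₂, MvPolynomial.eval_map]
  rfl

theorem map_rel (v : Wv β κ A) (φ : A →+* B) (i : Ri β κ) : (v.map φ).rel i = φ (v.rel i) := by
  rcases i with a | k | _ | _ | l | l
  · show φ _ - (φ _ + φ _ * φ _) = φ (_ - (_ + _ * _))
    rw [map_sub, map_add, map_mul]
  · show φ _ - (φ _ + MvPolynomial.eval (fun a => φ (v.σ (Sum.inl a)) * φ (v.ξ (Sum.inl a)))
      (MvPolynomial.map φ (v.Pj k)) + φ _ * φ _) = φ (_ - (_ + MvPolynomial.eval _ _ + _ * _))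
    rw [map_sub, map_add, map_add, map_mul, map_eval']
    simp only [map_mul]
  · show φ _ - φ _ - MvPolynomial.eval (fun a => φ (v.σ a) * φ (v.ξ a)) (MvPolynomial.map φ v.J) =
      φ (_ - _ - MvPolynomial.eval _ _)
    rw [map_sub, map_sub, map_eval']
    simp only [map_mul]
  · show φ _ - φ _ - MvPolynomial.eval (fun k => φ (v.R0 k)) (MvPolynomial.map φ v.p) =
      φ (_ - _ - MvPolynomial.eval _ _)
    rw [map_sub, map_sub, map_eval']
  · show φ _ - φ _ - MvPolynomial.eval (fun k => φ (v.R0 k)) (MvPolynomial.pderiv l (MvPolynomial.map φ v.p)) =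
      φ (_ - _ - MvPolynomial.eval _ _)
    rw [map_sub, map_sub, map_eval', MvPolynomial.pderiv_map]
  · show φ _ - MvPolynomial.eval (fun a => φ (v.σ a) * φ (v.ξ a))
        (MvPolynomial.pderiv (Sum.inr l) (MvPolynomial.map φ v.J)) = φ (_ - MvPolynomial.eval _ _)
    rw [map_sub, map_eval', MvPolynomial.pderiv_map]
    simp only [map_mul]

end Wv

section main

variable {S : Sp} {β κ : Type} [Fintype β] [Fintype κ]

/-- lifts of the data at a point -/
structure Lft (D : Dat S β κ) where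
  q : β → TR S
  R : κ → TR S
  z : TR S
  c : κ → TR S
  Pj : κ → MvPolynomial β (TR S)
  J : MvPolynomial (β ⊕ κ) (TR S)
  hq : ∀ a, QS.mk (q a) = D.q a
  hR : ∀ a, QS.mk (R a) = D.R a
  hz : QS.mk z = D.z
  hc : ∀ a, QS.mk (c a) = D.c a
  hPj : ∀ k, MvPolynomial.map QS.mk (Pj k) = D.Pj k
  hJ : MvPolynomial.map QS.mk J = D.J

theorem exists_lft (D : Dat S β κ) : Nonempty (Lft D) := by
  choose Pj hPj using fun k => MvPolynomial.map_surjective QS.mk (fun f => QS.mk_surj f) (D.Pj k)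
  obtain ⟨J, hJ⟩ := MvPolynomial.map_surjective QS.mk (fun f => QS.mk_surj f) D.J
  exact ⟨{ q := fun a => rep (D.q a)
           R := fun a => rep (D.R a)
           z := rep D.z
           c := fun a => rep (D.c a)
           Pj := Pj
           J := J
           hq := fun a => mk_rep _
           hR := fun a => mk_rep _
           hz := mk_rep _
           hc := fun a => mk_rep _
           hPj := hPj
           hJ := hJ }⟩

/-- the values of a walk, lifted -/
def lv {D : Dat S β κ} (l : Lft D) (s : ℝ) {d : ℕ} {W : Sp} (P0 P1 : Pj W S) (ξ : β ⊕ κ → TR W)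
    (c : (κ → Fin (d + 1)) → TR W) : Wv β κ (TR W) where
  q0 := fun a => P0.tr (l.q a)
  q1 := fun a => P1.tr (l.q a)
  R0 := fun a => P0.tr (l.R a)
  R1 := fun a => P1.tr (l.R a)
  z0 := P0.tr l.z
  z1 := P1.tr l.z
  c0 := fun a => P0.tr (l.c a)
  c1 := fun a => P1.tr (l.c a)
  Pj := fun k => MvPolynomial.map P0.tr (l.Pj k)
  J := MvPolynomial.map P0.tr l.J
  σ := fun a => scT W (D.wt a * s)
  ξ := ξ
  p := poly c

/-- the values of a walk in the ring of functions to full precision -/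
def qv (D : Dat S β κ) (s : ℝ) {W : Sp} (P0 P1 : Pj W S) (ξ : β ⊕ κ → QS W) (p : MvPolynomial κ (QS W)) :
    Wv β κ (QS W) where
  q0 := fun a => P0.qs (D.q a)
  q1 := fun a => P1.qs (D.q a)
  R0 := fun a => P0.qs (D.R a)
  R1 := fun a => P1.qs (D.R a)
  z0 := P0.qs D.z
  z1 := P1.qs D.z
  c0 := fun a => P0.qs (D.c a)
  c1 := fun a => P1.qs (D.c a)
  Pj := fun k => MvPolynomial.map P0.qs (D.Pj k)
  J := MvPolynomial.map P0.qs D.J
  σ := fun a => sc W (D.wt a * s)
  ξ := ξ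
  p := p

theorem map_tr {W : Sp} (P : Pj W S) {σ : Type} (F : MvPolynomial σ (TR S)) :
    MvPolynomial.map QS.mk (MvPolynomial.map P.tr F) = MvPolynomial.map P.qs (MvPolynomial.map QS.mk F) := by
  ext m
  rw [MvPolynomial.coeff_map, MvPolynomial.coeff_map, MvPolynomial.coeff_map, MvPolynomial.coeff_map]
  rfl

theorem lv_map {D : Dat S β κ} (l : Lft D) (s : ℝ) {d : ℕ} {W : Sp} (P0 P1 : Pj W S) (ξ : β ⊕ κ → TR W)
    (c : (κ → Fin (d + 1)) → TR W) : (lv l s P0 P1 ξ c).map QS.mk =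
      qv D s P0 P1 (fun a => QS.mk (ξ a)) (poly fun m => QS.mk (c m)) := by
  unfold lv qv Wv.map
  congr 1
  · funext a
    rw [← l.hq]
    rfl
  · funext a
    rw [← l.hq]
    rfl
  · funext a
    rw [← l.hR]
    rfl
  · funext a
    rw [← l.hR]
    rfl
  · rw [← l.hz]
    rfl
  · rw [← l.hz]
    rfl
  · funext a
    rw [← l.hc]
    rfl
  · funext a
    rw [← l.hc]
    rfl
  · funext k
    rw [← l.hPj]
    exact map_tr _ _
  · rw [← l.hJ]
    exact map_tr _ _
  · exact map_poly _ _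

/-- precision of the relations -/
def prc (D : Dat S β κ) (s : ℝ) : Wv.Ri β κ → ℝ :=
  Sum.elim (fun _ => 1) (Sum.elim (fun _ => D.w * s) (Sum.elim (fun _ => D.w * s) (Sum.elim (fun _ => D.w * s)
    (Sum.elim (fun _ => D.w * s) (fun l => (D.w - D.wv l) * s)))))

theorem wth_rel {D : Dat S β κ} {s ℓ th : ℝ} {d : ℕ} (k : Wth D s ℓ th d) (hT : k.T) (hC : k.RC) (i : Wv.Ri β κ) :
    (qv D s k.P0 k.P1 k.ξ k.p).rel i ∈ Id k.W (prc D s i) := by
  rcases i with a | l | _ | _ | l | l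
  · show k.P1.qs (D.q a) - (k.P0.qs (D.q a) + sc k.W (D.wt (Sum.inl a) * s) * k.ξ (Sum.inl a)) ∈ Id k.W 1
    rw [← k.dq, sub_self]
    exact Ideal.zero_mem _
  · exact k.dR l
  · exact k.hW
  · exact k.hp
  · exact hT l
  · exact hC l

theorem vd_sumelim {ι ι' : Type} [Fintype ι] [Fintype ι'] (f : ι → QS S) (g : ι' → QS S) (r : ℝ) :
    vd (Sum.elim f g) r = vd f r ⊔ vd g r := by
  apply le_antisymm
  · rw [vd_le]
    rintro (a | a)
    · exact (dg_le_vd f r a).trans le_sup_left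
    · exact (dg_le_vd g r a).trans le_sup_right
  · apply sup_le
    · rw [vd_le]
      intro a
      exact dg_le_vd (Sum.elim f g) r (Sum.inl a)
    · rw [vd_le]
      intro a
      exact dg_le_vd (Sum.elim f g) r (Sum.inr a)

/-- THE DIAGONAL OF WALKS -/
theorem wth_diag {D : Dat S β κ} {s ℓ : ℝ} {d : ℕ} (hℓ1 : ℓ ≤ 1)
    (hk : ∀ j : ℕ, ∃ k : Wth D s ℓ (1 / ((j : ℝ) + 1)) d, k.T ∧ k.RC) : ∃ k : Wth D s ℓ 0 d, k.T ∧ k.RC := by
  classical
  choose k hT hC using hk
  obtain ⟨l⟩ := exists_lft D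
  obtain ⟨Q, hQ⟩ : ∃ Q : S.Inf, cl Q = D.qi := by
    induction D.qi using cl_ind with | _ A
    exact ⟨A, rfl⟩
  obtain ⟨N, hN⟩ : ∃ N : S.Inf, cl N = D.inf := by
    induction D.inf using cl_ind with | _ A
    exact ⟨A, rfl⟩
  -- the functions
  let f : (β ⊕ κ) ⊕ (κ → Fin (d + 1)) → ∀ j, TR (k j).W := fun i j =>
    Sum.elim (fun a => rep ((k j).ξ a)) (fun m => rep ((k j).p.coeff (mo m))) i
  let v : ∀ j, Wv β κ (TR (k j).W) := fun j =>
    lv l s (k j).P0 (k j).P1 (fun a => f (Sum.inl a) j) (fun m => f (Sum.inr m) j)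
  have hv : ∀ j, (v j).map QS.mk = qv D s (k j).P0 (k j).P1 (k j).ξ (k j).p := by
    intro j
    show (lv l s (k j).P0 (k j).P1 (fun a => f (Sum.inl a) j) (fun m => f (Sum.inr m) j)).map QS.mk = _
    rw [lv_map]
    have e1 : (fun a => QS.mk (f (Sum.inl a) j)) = (k j).ξ := by
      funext a
      exact mk_rep _
    have e2 : (fun m => QS.mk (f (Sum.inr m) j)) = fun m : κ → Fin (d + 1) => (k j).p.coeff (mo m) := by
      funext m
      exact mk_rep _
    rw [e1, e2, poly_coeff _ (k j).pd]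
  have hg : ∀ i j, TR.Ag (min (prc D s i) 1) ((v j).rel i) 0 := by
    intro i j
    rw [← mem_Id_iff, ← Wv.map_rel, hv]
    exact wth_rel (k j) (hT j) (hC j) i
  let A : ℕ → ∀ j, (k j).W.Inf := fun i j =>
    if i = 2 then fi (fun a => f (Sum.inl a) j) ℓ else fi (fun a => f a j) 1
  let B : ℕ → ∀ j, (k j).W.Inf := fun i j =>
    if i = 2 then (k j).P0.mapI N else if i = 1 then Inf.sup ((k j).P0.mapI N) ((k j).P0.mapI Q) else
      (k j).P0.mapI Q
  obtain ⟨J, hJ, hn', hF, hR, hE⟩ := exists_diag (fun j => (k j).W)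
    (fun j k' => by rw [(k j).P0.hn k', (k 0).P0.hn k']) f (fun i j => (v j).rel i)
    (fun i => min (prc D s i) 1) hg A B
  choose F hF using hF
  -- the limit
  let W : Sp := dsp (fun j => (k j).W) J hn'
  let P0 : Pj W S :=
    { π := fun k' => (k (J k')).P0.π k'
      law := fun k' => (k (J k')).P0.law k'
      hZ := fun k' => (k (J k')).P0.hZ k'
      hn := fun k' => (k (J k')).P0.hn k' }
  let P1 : Pj W S :=
    { π := fun k' => (k (J k')).P1.π k'
      law := fun k' => (k (J k')).P1.law k'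
      hZ := fun k' => (k (J k')).P1.hZ k'
      hn := fun k' => (k (J k')).P1.hn k' }
  let V : Wv β κ (TR W) := lv l s P0 P1 (fun a => F (Sum.inl a)) (fun m => F (Sum.inr m))
  have hV : ∀ (k' : ℕ) (ω : ((k (J k')).W.F k').Ω), V.map (TR.evh (S := W) k' ω) =
      (v (J k')).map (TR.evh (S := (k (J k')).W) k' ω) := by
    intro k' ω
    show (lv l s P0 P1 (fun a => F (Sum.inl a)) (fun m => F (Sum.inr m))).map (TR.evh (S := W) k' ω) =
      (lv l s (k (J k')).P0 (k (J k')).P1 (fun a => f (Sum.inl a) (J k')) (fun m => f (Sum.inr m) (J k'))).map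
        (TR.evh (S := (k (J k')).W) k' ω)
    unfold lv Wv.map
    congr 1
    · funext k''
      beta_reduce
      rw [MvPolynomial.map_map, MvPolynomial.map_map]
      rfl
    · beta_reduce
      rw [MvPolynomial.map_map, MvPolynomial.map_map]
      rfl
    · funext a
      exact hF (Sum.inl a) k' ω
    · beta_reduce
      rw [map_poly, map_poly]
      congr 1
      funext m
      exact hF (Sum.inr m) k' ω
  have hrel : ∀ i, (qv D s P0 P1 (fun a => QS.mk (F (Sum.inl a))) (poly fun m => QS.mk (F (Sum.inr m)))).rel i ∈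
      Id W (prc D s i) := by
    intro i
    rw [← lv_map l, Wv.map_rel, mem_Id_iff]
    apply hR i
    intro k' ω
    have h1 := congrArg (fun x => Wv.rel x i) (hV k' ω)
    beta_reduce at h1
    rw [Wv.map_rel, Wv.map_rel] at h1
    exact h1
  -- entropies
  have hrt : ∀ (A' B' : W.Inf) (i : ℕ), (∀ k', A'.1 k' = (A i (J k')).1 k') → (∀ k', B'.1 k' = (B i (J k')).1 k') →
      ∀ k', W.rt A'.1 B'.1 k' = ((k (J k')).W).rt (A i (J k')).1 (B i (J k')).1 k' := by
    intro A' B' i hA hB k'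
    have e1 : W.rt A'.1 B'.1 k' = (((k (J k')).W).F k').e (A'.1 k') (B'.1 k' ⊓ (((k (J k')).W).F k').Z) /
      (((k (J k')).W).F k').n := rfl
    rw [e1, hA, hB]
    rfl
  have hlim : ∀ (A' B' : W.Inf) (i : ℕ), (∀ k', A'.1 k' = (A i (J k')).1 k') →
      (∀ k', B'.1 k' = (B i (J k')).1 k') →
      Tendsto (fun k' => ul (((k (J k')).W).rt (A i (J k')).1 (B i (J k')).1)) UF (𝓝 (h (cl A') (cl B'))) := by
    intro A' B' i hA hB
    rw [h_cl]
    have h1 := (ul_tendsto (UB_rt A' B'.1)).sub (hE i)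
    rw [sub_zero] at h1
    refine h1.congr fun k' => ?_
    rw [hrt A' B' i hA hB k']
    ring
  let X : W.Inf := fi F 1
  let Y : W.Inf := fi (fun a => F (Sum.inl a)) ℓ
  have hX : ∀ k', X.1 k' = (fi (fun a => f a (J k')) 1).1 k' := fun k' =>
    fi_diag (F := F) (f := f) (fun i k'' ω => hF i k'' ω) 1 k'
  have hY : ∀ k', Y.1 k' = (fi (fun a => f (Sum.inl a) (J k')) ℓ).1 k' := fun k' =>
    fi_diag (F := fun a => F (Sum.inl a)) (f := fun a => f (Sum.inl a)) (fun i k'' ω => hF (Sum.inl i) k'' ω) ℓ k'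
  have L0 := hlim X (P0.mapI Q) 0 hX (fun _ => rfl)
  have L1 := hlim X (Inf.sup (P0.mapI N) (P0.mapI Q)) 1 hX (fun _ => rfl)
  have L2 := hlim Y (P0.mapI N) 2 hY (fun _ => rfl)
  -- values for finite `j`
  have hXj : ∀ j, cl (fi (fun a => f a j) 1) = vd (k j).ξ 1 ⊔ cf d (k j).p := by
    intro j
    rw [cl_fi _ le_rfl]
    have e1 : (fun a => QS.mk (f a j)) = Sum.elim (k j).ξ fun m : κ → Fin (d + 1) => (k j).p.coeff (mo m) := by
      funext a
      rcases a with a | m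
      · exact mk_rep _
      · exact mk_rep _
    rw [e1, vd_sumelim]
    rfl
  have hYj : ∀ j, cl (fi (fun a => f (Sum.inl a) j) ℓ) = vd (k j).ξ ℓ := by
    intro j
    rw [cl_fi _ hℓ1]
    congr 1
    funext a
    exact mk_rep _
  have hqj : ∀ j, cl ((k j).P0.mapI Q) = (k j).P0.map D.qi := by
    intro j
    rw [← hQ]
    rfl
  have hNj : ∀ j, cl ((k j).P0.mapI N) = (k j).P0.map D.inf := by
    intro j
    rw [← hN]
    rfl
  have hq0 : cl (P0.mapI Q) = P0.map D.qi := by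
    rw [← hQ]
    rfl
  have hN0 : cl (P0.mapI N) = P0.map D.inf := by
    rw [← hN]
    rfl
  have h01 : ∀ j, ul ((k j).W.rt (fi (fun a => f a j) 1).1 ((k j).P0.mapI Q).1) =
      ul ((k j).W.rt (fi (fun a => f a j) 1).1 (Inf.sup ((k j).P0.mapI N) ((k j).P0.mapI Q)).1) := by
    intro j
    rw [← h_cl, ← h_cl, cl_sup, hXj, hqj, hNj]
    exact (I_zero_iff_h.mp (k j).ind).symm
  have h2 : ∀ j : ℕ, Fintype.card (β ⊕ κ) * ℓ - 1 / ((j : ℝ) + 1) ≤
      ul ((k j).W.rt (fi (fun a => f (Sum.inl a) j) ℓ).1 ((k j).P0.mapI N).1) := by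
    intro j
    rw [← h_cl, hYj, hNj]
    exact (k j).real
  have hind : h (cl X) (cl (P0.mapI Q)) = h (cl X) (cl (Inf.sup (P0.mapI N) (P0.mapI Q))) := by
    apply tendsto_nhds_unique L0
    refine L1.congr fun k' => ?_
    exact (h01 (J k')).symm
  have hreal : Fintype.card (β ⊕ κ) * ℓ ≤ h (cl Y) (cl (P0.mapI N)) := by
    have h3 : Tendsto (fun k' => Fintype.card (β ⊕ κ) * ℓ - 1 / ((J k' : ℝ) + 1)) UF
        (𝓝 (Fintype.card (β ⊕ κ) * ℓ)) := by
      have h4 : Tendsto (fun k' => 1 / ((J k' : ℝ) + 1)) UF (𝓝 0) :=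
        tendsto_one_div_add_atTop_nhds_zero_nat.comp hJ
      have h5 := h4.const_sub (Fintype.card (β ⊕ κ) * ℓ)
      rwa [sub_zero] at h5
    exact le_of_tendsto_of_tendsto h3 L2 (Eventually.of_forall fun k' => h2 (J k'))
  have hXv : cl X = vd (fun a => QS.mk (F (Sum.inl a))) 1 ⊔
      cf d (poly fun m => QS.mk (F (Sum.inr m)) : MvPolynomial κ (QS W)) := by
    have e0 : cl X = vd (fun a => QS.mk (F a)) 1 := cl_fi F le_rfl
    have e1 : (fun a => QS.mk (F a)) = Sum.elim (fun a => QS.mk (F (Sum.inl a))) fun m => QS.mk (F (Sum.inr m)) := by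
      funext a
      rcases a with a | m
      · rfl
      · rfl
    rw [e0, e1, vd_sumelim]
    congr 1
    unfold cf
    congr 1
    funext m
    exact (coeff_poly (A := QS W) (fun m => QS.mk (F (Sum.inr m))) m).symm
  let K : Wth D s ℓ 0 d :=
    { W := W
      P0 := P0
      P1 := P1
      ξ := fun a => QS.mk (F (Sum.inl a))
      dq := fun a => by
        have h3 := hrel (Sum.inl a)
        exact sub_eq_zero.mp (mem_Id_one.mp h3)
      dR := fun a => hrel (Sum.inr (Sum.inl a))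
      hW := hrel (Sum.inr (Sum.inr (Sum.inl ())))
      p := poly fun m => QS.mk (F (Sum.inr m))
      pd := coeff_poly' _
      hp := hrel (Sum.inr (Sum.inr (Sum.inr (Sum.inl ()))))
      ind := by
        rw [← hXv, I_zero_iff_h, ← hN0, ← hq0, ← cl_sup]
        exact hind.symm
      real := by
        rw [sub_zero, ← hN0]
        have e1 : cl Y = vd (fun a => QS.mk (F (Sum.inl a))) ℓ := cl_fi _ hℓ1
        rw [← e1]
        exact hreal }
  exact ⟨K, fun a => hrel (Sum.inr (Sum.inr (Sum.inr (Sum.inr (Sum.inl a))))),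
    fun a => hrel (Sum.inr (Sum.inr (Sum.inr (Sum.inr (Sum.inr a)))))⟩

/-- WALKS from walks with small errors -/
theorem walk_diag {D : Dat S β κ} {s ℓ : ℝ} {d : ℕ} (hℓ : 0 < ℓ) (hℓ1 : ℓ ≤ 1)
    (hk : ∀ th : ℝ, 0 < th → ∃ k : Wth D s ℓ th d, k.T ∧ k.RC) : ∃ k : Walk D s, k.T ∧ k.RC := by
  obtain ⟨k, hT, hC⟩ := wth_diag hℓ1 fun j : ℕ => hk (1 / ((j : ℝ) + 1)) (by positivity)
  exact ⟨k.walk hℓ hℓ1, hT, hC⟩

end main

end

end Pool.Agent.Helper79.WLK
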