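import Pool.Agent.Helper79.WLK.Rc

/-! LEMMA 0: the polynomials of literal boxes of different scales agree, one polynomial for all scales. -/

set_option autoImplicit false
set_option linter.unusedSectionVars false

namespace Pool.Agent.Helper79.WLK

open Finset Filter Topology Pool.Agent.Helper69.RK Pool.Agent.Helper31.EC Pool.Agent.Helper31.EC.Sp
open Pool.Agent.Helper31.EC.QS Pool.Agent.Helper57.TA Pool.Agent.Helper21.DO Pool.Agent.Helper38.NS
open Pool.Agent.Helper79.JET

noncomputable section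

variable {S : Sp} {β κ : Type} [Fintype β] [Fintype κ]
variable {q : β → QS S} {R : κ → QS S} {Q : κ → MvPolynomial β (QS S)} {wt : β ⊕ κ → ℝ} {z : QS S} {w : ℝ}

/-- a common number of free digits -/
theorem exists_ell {wt : β ⊕ κ → ℝ} (hwt : ∀ a, 0 ≤ wt a) {s : ℝ} (hs : 0 ≤ s) (h1 : ∀ a, wt a * s < 1) :
    ∃ ℓ : ℝ, 0 < ℓ ∧ ℓ ≤ 1 ∧ ∀ a, ℓ ≤ 1 - wt a * s := by
  by_cases hne : Nonempty (β ⊕ κ)
  · obtain ⟨a, -, ha⟩ := Finset.exists_min_image Finset.univ (fun a => 1 - wt a * s)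
      ⟨Classical.choice hne, Finset.mem_univ _⟩
    refine ⟨1 - wt a * s, by have := h1 a; linarith, ?_, fun b => ha b (Finset.mem_univ b)⟩
    have := mul_nonneg (hwt a) hs
    linarith
  · exact ⟨1, one_pos, le_rfl, fun a => absurd ⟨a⟩ hne⟩

/-- the polynomials of two boxes -/
theorem two_scales {ι ι' : Type} [Fintype ι] [Fintype ι'] {g : ι → QS S} {g' : ι' → QS S} {s' : ℝ}
    (hb' : LB q R Q wt g' s') (hs' : 0 ≤ s') (hwt : ∀ a, 0 ≤ wt a) (h1 : ∀ a, wt a * s' < 1)
    (hg : vd g 1 ≤ vd g' 1) {r : ℝ} (hr : r ≤ 1) {J J' : MvPolynomial (β ⊕ κ) (QS S)}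
    (hJ : LR q R Q z J g r) (hJ' : LR q R Q z J' g' r) (m : β ⊕ κ →₀ ℕ) :
    J.coeff m - J'.coeff m ∈ Id S (r - wgt wt m * s') := by
  obtain ⟨ℓ, hℓ, hℓ1, hℓw⟩ := exists_ell hwt hs' h1
  obtain ⟨D, p, P2, ξ, c1, c2, hξ, _, _, hR⟩ := hb'.fresh hs' hwt hℓ.le hℓw g hg (Pj.id S)
  set P := p.comp (Pj.id S) with hP
  have k' : ∀ i, P.qs (g' i) = P2.qs (g' i) := by
    intro i
    rw [hP, Pj.comp_qs]
    exact c1 i
  have k : ∀ i, P.qs (g i) = P2.qs (g i) := by
    intro i
    rw [hP, Pj.comp_qs]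
    exact c2 i
  obtain ⟨B, hB⟩ := exists_know J
  obtain ⟨B', hB'⟩ := exists_know J'
  have h2 := (Id D r).sub_mem (hJ' D P P2 k') (hJ D P P2 k)
  have h3 : MvPolynomial.eval (fun a => sc D (wt a * s') * ξ a) (MvPolynomial.map P.qs (J - J')) ∈ Id D r := by
    have e1 : (fun a => sc D (wt a * s') * ξ a) = bc P P2 q R Q := by
      funext a
      exact (hξ a).symm
    rw [e1, map_sub, map_sub]
    refine (congrArg (· ∈ Id D r) ?_).mp h2
    ring
  have hk : MvPolynomial.map P.qs (J - J') ∈ PK (p.map (B ⊔ B')) := by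
    have e2 : P.map (B ⊔ B') = p.map (B ⊔ B') := by
      rw [hP, Pj.comp_map, Pj.id_map]
    rw [← e2]
    exact map_PK P ((PK _).sub_mem (PK_mono le_sup_left hB) (PK_mono le_sup_right hB'))
  have h4 := small_raw hwt hs' hℓ hℓ1 (hR (B ⊔ B')) hr le_rfl (PKr_of_PK le_rfl hk) h3 m
  have hle : r - wgt wt m * s' ≤ 1 := by
    have := mul_nonneg (wgt_nonneg hwt m) hs'
    linarith
  rw [MvPolynomial.coeff_map, P.qs_mem_Id hle, MvPolynomial.coeff_sub] at h4
  exact h4

/-- polynomials with close coefficients (relative to the weights) have close values in a box -/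
theorem eval_close {D : Sp} {x : β ⊕ κ → QS D} {s : ℝ} (hs : 0 ≤ s) (hwt : ∀ a, 0 ≤ wt a)
    (hx : ∀ a, x a ∈ Id D (wt a * s)) (F : MvPolynomial (β ⊕ κ) (QS D)) {w : ℝ} (h1 : ∀ a, wt a * s ≤ 1)
    (hF : ∀ m, F.coeff m ∈ Id D ((w - wgt wt m) * s)) : MvPolynomial.eval x F ∈ Id D (w * s) := by
  choose ξ hξ _ using fun a => exists_div' (mul_nonneg (hwt a) hs) (h1 a) (hx a)
  have e : x = fun a => sc D (wt a * s) * ξ a := by
    funext a
    exact hξ a
  rw [e, MvPolynomial.eval_eq']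
  apply Ideal.sum_mem
  intro m _
  rw [mon_scale hwt hs]
  have h2 := sc_mul_mem (mul_nonneg (wgt_nonneg hwt m) hs) (hF m)
  have e1 : wgt wt m * s + (w - wgt wt m) * s = w * s := by ring
  rw [e1] at h2
  have h3 := Ideal.mul_mem_right (∏ a, ξ a ^ m a) _ h2
  refine (congrArg (· ∈ Id D (w * s)) ?_).mp h3
  ring

/-- LEMMA 0: one polynomial for all scales -/
theorem one {s₀ : ℝ} (hs₀ : 0 ≤ s₀) (hwt : ∀ a, 0 ≤ wt a) (h1 : ∀ a, wt a * s₀ < 1) (hw0 : 0 ≤ w) (hws : w * s₀ ≤ 1)
    {ι : ℝ → Type} [∀ s, Fintype (ι s)] (g : ∀ s, ι s → QS S) (J : ℝ → MvPolynomial (β ⊕ κ) (QS S))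
    (hb : ∀ s, 0 ≤ s → s ≤ s₀ → LB q R Q wt (g s) s)
    (hJ : ∀ s, 0 ≤ s → s ≤ s₀ → LR q R Q z (J s) (g s) (w * s))
    (hg : ∀ s s', 0 ≤ s → s ≤ s' → s' ≤ s₀ → vd (g s) 1 ≤ vd (g s') 1)
    (hdeg : ∀ s, 0 ≤ s → s ≤ s₀ → ∀ m, (J s).coeff m ≠ 0 → wgt wt m ≤ w) (s : ℝ) (hs : 0 ≤ s) (hss : s ≤ s₀) :
    (∀ m, (J s).coeff m - (J s₀).coeff m ∈ Id S ((w - wgt wt m) * s)) ∧ LR q R Q z (J s₀) (g s) (w * s) := by
  have hwt1 : ∀ t, 0 ≤ t → t ≤ s₀ → ∀ a, wt a * t < 1 := fun t _ ht a =>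
    (mul_le_mul_of_nonneg_left ht (hwt a)).trans_lt (h1 a)
  have hws1 : ∀ t, 0 ≤ t → t ≤ s₀ → w * t ≤ 1 := fun t _ ht => (mul_le_mul_of_nonneg_left ht hw0).trans hws
  have hmain : ∀ m, (J s).coeff m - (J s₀).coeff m ∈ Id S ((w - wgt wt m) * s) := by
    intro m
    by_cases hm : wgt wt m ≤ w
    · have hwm : 0 ≤ wgt wt m := wgt_nonneg hwt m
      -- chains
      have hchain : ∀ N : ℕ, 0 < N →
          (J s).coeff m - (J s₀).coeff m ∈ Id S ((w - wgt wt m) * s - wgt wt m * ((s₀ - s) / N)) := by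
        intro N hN
        set δ : ℝ := (s₀ - s) / N with hδ
        have hN' : (0 : ℝ) < N := Nat.cast_pos.mpr hN
        have hδ0 : 0 ≤ δ := div_nonneg (by linarith) hN'.le
        have hstep : ∀ n : ℕ, n ≤ N → (J s).coeff m - (J (s + n * δ)).coeff m ∈
            Id S ((w - wgt wt m) * s - wgt wt m * δ) := by
          intro n
          induction n with
          | zero =>
            intro _
            rw [Nat.cast_zero, zero_mul, add_zero, sub_self]
            exact Ideal.zero_mem _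
          | succ n ih =>
            intro hn
            have hi := ih (by omega)
            have ha0 : 0 ≤ s + n * δ := by positivity
            have hb0 : s + (n + 1 : ℕ) * δ ≤ s₀ := by
              have e1 : ((n + 1 : ℕ) : ℝ) * δ ≤ N * δ := mul_le_mul_of_nonneg_right (Nat.cast_le.mpr hn) hδ0
              have e2 : (N : ℝ) * δ = s₀ - s := by
                rw [hδ]
                field_simp
              linarith
            have hab : s + n * δ ≤ s + (n + 1 : ℕ) * δ := by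
              push_cast
              nlinarith
            have h2 := two_scales (hb _ (ha0.trans hab) hb0) (ha0.trans hab) hwt (hwt1 _ (ha0.trans hab) hb0)
              (hg _ _ ha0 hab hb0) (hws1 _ ha0 (hab.trans hb0)) (hJ _ ha0 (hab.trans hb0))
              ((hJ _ (ha0.trans hab) hb0).mono (mul_le_mul_of_nonneg_left hab hw0)) m
            have hle : (w - wgt wt m) * s - wgt wt m * δ ≤
                w * (s + n * δ) - wgt wt m * (s + (n + 1 : ℕ) * δ) := by
              push_cast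
              have : 0 ≤ (w - wgt wt m) * (n * δ) := mul_nonneg (by linarith) (by positivity)
              nlinarith
            have h3 := Ideal.add_mem _ hi (Id_mono hle h2)
            rwa [sub_add_sub_cancel] at h3
        have h4 := hstep N le_rfl
        have e3 : s + N * δ = s₀ := by
          rw [hδ]
          field_simp
          ring
        rwa [e3] at h4
      apply mem_Id_of_lt
      · have := hws1 s hs hss
        have := mul_nonneg hwm hs
        nlinarith
      · intro t ht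
        obtain ⟨N, hN⟩ := exists_nat_gt (wgt wt m * (s₀ - s) / ((w - wgt wt m) * s - t))
        have hd : 0 < (w - wgt wt m) * s - t := by linarith
        have hN0 : 0 ≤ wgt wt m * (s₀ - s) / ((w - wgt wt m) * s - t) :=
          div_nonneg (mul_nonneg hwm (by linarith)) hd.le
        have hN1 : (0 : ℝ) < N := hN0.trans_lt hN
        refine Id_mono ?_ (hchain N (Nat.cast_pos.mp hN1))
        rw [div_lt_iff₀ hd] at hN
        have h5 : wgt wt m * ((s₀ - s) / N) ≤ (w - wgt wt m) * s - t := by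
          rw [← mul_div_assoc, div_le_iff₀ hN1]
          linarith
        linarith
    · have h2 : ∀ t, 0 ≤ t → t ≤ s₀ → (J t).coeff m = 0 := by
        intro t ht ht'
        by_contra hc
        exact hm (hdeg t ht ht' m hc)
      rw [h2 s hs hss, h2 s₀ hs₀ le_rfl, sub_self]
      exact Ideal.zero_mem _
  refine ⟨hmain, ?_⟩
  intro W P0 P1 hc
  have h2 := hJ s hs hss W P0 P1 hc
  have h3 := eval_close (w := w) hs hwt ((hb s hs hss).mem W P0 P1 hc)
    (MvPolynomial.map P0.qs (J s - J s₀)) (fun a => (hwt1 s hs hss a).le) (by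
      intro m
      rw [MvPolynomial.coeff_map, MvPolynomial.coeff_sub]
      exact qs_Id P0 (hmain m))
  rw [map_sub, map_sub] at h3
  have h4 := Ideal.add_mem _ h2 h3
  refine (congrArg (· ∈ Id W (w * s)) ?_).mp h4
  ring

end

end Pool.Agent.Helper79.WLK
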